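import Pool.Agent.H30.BQR.Exp

set_option autoImplicit false
set_option linter.unusedSectionVars false

namespace Pool.Agent.H30.BQR

open MvPolynomial Finset Module

theorem trace_avg {M G : Type*} [AddCommGroup M] [Module ℚ M] [Module.Finite ℚ M] [Group G] [Fintype G]
    (ρ : G →* (M →ₗ[ℚ] M)) (A : M →ₗ[ℚ] M) (U : Submodule ℚ M) (hU : ∀ x, x ∈ U ↔ ∀ g, ρ g x = x)
    (hA : ∀ x ∈ U, A x ∈ U) :
    LinearMap.trace ℚ U (A.restrict hA) =
      (Fintype.card G : ℚ)⁻¹ * ∑ g, LinearMap.trace ℚ M (A ∘ₗ ρ g) := by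
  set P : M →ₗ[ℚ] M := (Fintype.card G : ℚ)⁻¹ • ∑ g, ρ g with hP
  have hPU : ∀ x, P x ∈ U := by
    intro x
    rw [hU]
    intro h
    rw [hP, LinearMap.smul_apply, map_smul, LinearMap.sum_apply, map_sum]
    congr 1
    have : ∀ g, ρ h (ρ g x) = ρ (h * g) x := fun g => by rw [map_mul]; rfl
    simp_rw [this]
    exact Fintype.sum_equiv (Equiv.mulLeft h) _ _ (fun g => rfl)
  have hPid : ∀ x ∈ U, P x = x := by
    intro x hx
    rw [hU] at hx
    rw [hP, LinearMap.smul_apply, LinearMap.sum_apply, Finset.sum_congr rfl (fun g _ => hx g)]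
    rw [Finset.sum_const, Finset.card_univ, ← Nat.cast_smul_eq_nsmul ℚ, smul_smul, inv_mul_cancel₀, one_smul]
    exact_mod_cast Fintype.card_ne_zero
  set p : M →ₗ[ℚ] U := P.codRestrict U hPU with hp
  have h1 : LinearMap.trace ℚ M (A ∘ₗ P) = LinearMap.trace ℚ U (A.restrict hA) := by
    have h2 : A ∘ₗ P = (A ∘ₗ U.subtype) ∘ₗ p := by ext x; rfl
    rw [h2, LinearMap.trace_comp_comm' p (A ∘ₗ U.subtype)]
    congr 1
    ext x
    change P (A x) = A x
    exact hPid _ (hA _ x.2)
  rw [← h1, hP, LinearMap.comp_smul, map_smul, smul_eq_mul]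
  congr 1
  have h3 : A ∘ₗ ∑ g, ρ g = ∑ g, A ∘ₗ ρ g := by ext x; simp [LinearMap.sum_apply]
  rw [h3, map_sum]

section main
variable {r d : ℕ}

/-- permutations preserving each batch -/
def Yng (r d : ℕ) : Subgroup (Equiv.Perm (Fin r × Fin d)) where
  carrier := {u | ∀ v, (u v).1 = v.1}
  mul_mem' := by
    intro a b ha hb v
    rw [Equiv.Perm.mul_apply, ha, hb]
  one_mem' := fun v => rfl
  inv_mem' := by
    intro a ha v
    have := ha (a⁻¹ v)
    rw [show a (a⁻¹ v) = v from a.apply_symm_apply v] at this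
    exact this.symm

lemma Over_one_iff {u : Equiv.Perm (Fin r × Fin d)} : u ∈ Yng r d ↔ Over u 1 := Iff.rfl

lemma Over_mul {w u : Equiv.Perm (Fin r × Fin d)} {σ τ : Equiv.Perm (Fin r)} (h : Over w σ) (hu : Over u τ) :
    Over (w * u) (σ * τ) := by
  intro v
  rw [Equiv.Perm.mul_apply, h, hu, Equiv.Perm.mul_apply]

lemma Over_mul_yng {w u : Equiv.Perm (Fin r × Fin d)} {σ : Equiv.Perm (Fin r)} (h : Over w σ) (hu : Over u 1) :
    Over (w * u) σ := by
  have := Over_mul h hu
  rwa [mul_one] at this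

lemma Over_inv {w : Equiv.Perm (Fin r × Fin d)} {σ : Equiv.Perm (Fin r)} (h : Over w σ) :
    Over w⁻¹ σ⁻¹ := by
  intro v
  have := h (w⁻¹ v)
  rw [show w (w⁻¹ v) = v from w.apply_symm_apply v] at this
  rw [this]
  exact (σ.symm_apply_apply _).symm

/-- the action on the degree `m` part -/
noncomputable def act {w : Equiv.Perm (Fin r × Fin d)} {σ : Equiv.Perm (Fin r)} (h : Over w σ) (k s m : ℕ) :
    (homogeneousSubmodule (Fin r × Fin d) ℚ m ⧸ gp (Jk r d k s) m) →ₗ[ℚ]
      (homogeneousSubmodule (Fin r × Fin d) ℚ m ⧸ gp (Jk r d k s) m) :=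
  (gp (Jk r d k s) m).mapQ (gp (Jk r d k s) m) (fH w m) (gp_le (Stab_Jk h k s) m)

lemma act_mk {w : Equiv.Perm (Fin r × Fin d)} {σ : Equiv.Perm (Fin r)} (h : Over w σ) (k s m : ℕ)
    (x : homogeneousSubmodule (Fin r × Fin d) ℚ m) :
    act h k s m (Submodule.Quotient.mk x) = Submodule.Quotient.mk (fH w m x) := rfl

lemma fH_mul (w u : Equiv.Perm (Fin r × Fin d)) (m : ℕ) (x : homogeneousSubmodule (Fin r × Fin d) ℚ m) :
    fH (w * u) m x = fH w m (fH u m x) := by
  apply Subtype.ext
  rw [fH_coe, fH_coe, fH_coe, rename_rename]; rfl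

lemma fH_one (m : ℕ) (x : homogeneousSubmodule (Fin r × Fin d) ℚ m) :
    fH (1 : Equiv.Perm (Fin r × Fin d)) m x = x := by
  apply Subtype.ext
  rw [fH_coe]
  exact rename_id_apply _

lemma act_mul {w u w' : Equiv.Perm (Fin r × Fin d)} {σ τ ρ : Equiv.Perm (Fin r)} (h : Over w σ) (hu : Over u τ)
    (h' : Over w' ρ) (he : w' = w * u) (k s m : ℕ)
    (x : homogeneousSubmodule (Fin r × Fin d) ℚ m ⧸ gp (Jk r d k s) m) :
    act h' k s m x = act h k s m (act hu k s m x) := by
  subst he
  obtain ⟨x, rfl⟩ := Submodule.Quotient.mk_surjective _ x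
  rw [act_mk, act_mk, act_mk, fH_mul]

lemma act_one (h : Over (1 : Equiv.Perm (Fin r × Fin d)) 1) (k s m : ℕ)
    (x : homogeneousSubmodule (Fin r × Fin d) ℚ m ⧸ gp (Jk r d k s) m) :
    act h k s m x = x := by
  obtain ⟨x, rfl⟩ := Submodule.Quotient.mk_surjective _ x
  rw [act_mk, fH_one]

/-- invariants under the Young subgroup -/
noncomputable def InvS (r d k s m : ℕ) : Submodule ℚ (homogeneousSubmodule (Fin r × Fin d) ℚ m ⧸ gp (Jk r d k s) m) where
  carrier := {x | ∀ (u : Equiv.Perm (Fin r × Fin d)) (hu : Over u 1), act hu k s m x = x}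
  add_mem' := by
    intro a b ha hb u hu
    rw [map_add, ha, hb]
  zero_mem' := by
    intro u hu; rw [map_zero]
  smul_mem' := by
    intro c x hx u hu
    rw [map_smul, hx]

lemma mem_InvS {k s m : ℕ} {x : homogeneousSubmodule (Fin r × Fin d) ℚ m ⧸ gp (Jk r d k s) m} :
    x ∈ InvS r d k s m ↔ ∀ (u : Equiv.Perm (Fin r × Fin d)) (hu : Over u 1), act hu k s m x = x := Iff.rfl

lemma act_InvS {w : Equiv.Perm (Fin r × Fin d)} {σ : Equiv.Perm (Fin r)} (h : Over w σ) (k s m : ℕ) :
    ∀ x ∈ InvS r d k s m, act h k s m x ∈ InvS r d k s m := by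
  intro x hx u hu
  have h1 : Over (w⁻¹ * u * w) 1 := by
    have := Over_mul (Over_mul (Over_inv h) hu) h
    simpa using this
  have h2 : Over (u * w) σ := by simpa using Over_mul hu h
  rw [← act_mul hu h h2 rfl, act_mul h h1 h2 (by group), hx _ h1]

/-- the representation of the Young subgroup -/
noncomputable def rhoY (k s m : ℕ) : Yng r d →*
    ((homogeneousSubmodule (Fin r × Fin d) ℚ m ⧸ gp (Jk r d k s) m) →ₗ[ℚ]
      (homogeneousSubmodule (Fin r × Fin d) ℚ m ⧸ gp (Jk r d k s) m)) where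
  toFun u := act (σ := 1) u.2 k s m
  map_one' := LinearMap.ext fun x => act_one _ k s m x
  map_mul' a b := LinearMap.ext fun x => act_mul (σ := 1) (τ := 1) (ρ := 1) a.2 b.2 (a * b).2 rfl k s m x

noncomputable instance : Fintype (Yng r d) := Fintype.ofFinite _

/-- trace on the invariants -/
noncomputable def ichi {w : Equiv.Perm (Fin r × Fin d)} {σ : Equiv.Perm (Fin r)} (h : Over w σ) (k s m : ℕ) : ℚ :=
  LinearMap.trace ℚ _ ((act h k s m).restrict (act_InvS h k s m))

lemma ichi_eq {w : Equiv.Perm (Fin r × Fin d)} {σ : Equiv.Perm (Fin r)} (h : Over w σ) (k s m : ℕ) :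
    ichi h k s m = (Fintype.card (Yng r d) : ℚ)⁻¹ *
      ∑ u : Yng r d, chi (w * (u : Equiv.Perm (Fin r × Fin d))) (Jk r d k s)
        (Stab_Jk (Over_mul_yng h u.2) k s) m := by
  unfold ichi
  rw [trace_avg (rhoY k s m) (act h k s m) (InvS r d k s m) ?_ (act_InvS h k s m)]
  · congr 1
    apply Finset.sum_congr rfl
    intro u _
    unfold chi qtr
    congr 1
    apply LinearMap.ext
    intro x
    exact (act_mul h (show Over (u : Equiv.Perm (Fin r × Fin d)) 1 from u.2) (Over_mul_yng h u.2) rfl k s m x).symm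
  · intro x
    rw [mem_InvS]
    exact ⟨fun hx g => hx g g.2, fun hx u hu => hx ⟨u, hu⟩⟩

lemma ichi_series {w : Equiv.Perm (Fin r × Fin d)} {σ : Equiv.Perm (Fin r)} (h : Over w σ) (k s : ℕ) :
    (PowerSeries.mk fun m => ichi h k s m) = PowerSeries.C ((Fintype.card (Yng r d) : ℚ)⁻¹) *
      ∑ u : Yng r d, Chi (w * (u : Equiv.Perm (Fin r × Fin d))) (Jk r d k s)
        (Stab_Jk (Over_mul_yng h u.2) k s) := by
  ext m
  rw [PowerSeries.coeff_mk, ichi_eq, PowerSeries.coeff_C_mul, map_sum]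
  simp only [Chi, PowerSeries.coeff_mk]

/-! ### evaluation at `q = 1` -/

lemma card_cl_one (i : Fin r) : cl (1 : Equiv.Perm (Fin r)) i = {i} := by
  ext j; rw [mem_cl, Equiv.Perm.sameCycle_one, mem_singleton, eq_comm]

noncomputable def gs (a : ℕ) : Polynomial ℚ := ∑ i ∈ range a, Polynomial.X ^ i

lemma gs_mul (a : ℕ) : (1 - Polynomial.X) * gs a = 1 - (Polynomial.X : Polynomial ℚ) ^ a := mul_neg_geom_sum _ _

lemma gs_eval (a : ℕ) : (gs a).eval 1 = a := by
  simp [gs, Polynomial.eval_finsetSum]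

lemma chi_B_big {w : Equiv.Perm (Fin r × Fin d)} {σ : Equiv.Perm (Fin r)} (h : Over w σ) {k : ℕ} (hdk : d ≤ k)
    {m : ℕ} (hm : r * d * k < m) : chi w (Jk r d k 0) (Stab_Jk h _ _) m = 0 := by
  classical
  have h1 := chi_of_basis (Stab_Jk h k 0) m (PhiB hdk) (fun c => qt k c ≠ 0) (hom_eq_span_phi hdk m) (thI_span hdk)
  rw [h1, Finset.filter_eq_empty_iff.mpr, Finset.sum_empty]
  intro c hc
  rw [mem_Dm, Finsupp.degree_eq_sum] at hc
  simp only [not_not, ne_eq]
  intro h0
  rw [qt_eq_zero_iff hdk] at h0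
  have : ∑ v, c v ≤ ∑ _v : Fin r × Fin d, k := Finset.sum_le_sum fun v _ => by have := h0 v; omega
  simp at this
  omega

lemma eval_one {u : Equiv.Perm (Fin r × Fin d)} (h : Over u 1) :
    ∑ m ∈ range (r * d * d + 1), chi u (Jk r d d 0) (Stab_Jk h _ _) m =
      if u = 1 then ((d.factorial ^ r : ℕ) : ℚ) else 0 := by
  set p : Polynomial ℚ := ∑ m ∈ range (r * d * d + 1),
    Polynomial.C (chi u (Jk r d d 0) (Stab_Jk h _ _) m) * Polynomial.X ^ m with hp
  have hpc : (p : PowerSeries ℚ) = Chi u (Jk r d d 0) (Stab_Jk h _ _) := by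
    ext m
    rw [Polynomial.coeff_coe, hp, Polynomial.finsetSum_coeff]
    simp only [Polynomial.coeff_C_mul_X_pow]
    rw [Finset.sum_ite_eq, Chi, PowerSeries.coeff_mk]
    split_ifs with hm
    · rfl
    · rw [mem_range] at hm
      rw [chi_B_big h le_rfl (by omega)]
  have hpe : p.eval 1 = ∑ m ∈ range (r * d * d + 1), chi u (Jk r d d 0) (Stab_Jk h _ _) m := by
    rw [hp, Polynomial.eval_finsetSum]
    simp
  rw [← hpe]
  -- the polynomial identity
  have h1 := Chi_th h (le_refl d) (Stab_Jk h d 0)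
  rw [prod_cyc_ppi] at h1
  have h1' : Chi u (thI r d d) (Stab_Jk h d 0) = (p : PowerSeries ℚ) := hpc.symm
  rw [h1'] at h1
  have h2 : p * ∏ O ∈ cyc u, (1 - (Polynomial.X : Polynomial ℚ) ^ O.card) =
      ∏ c ∈ cyc (1 : Equiv.Perm (Fin r)), ∏ i ∈ range d, (1 - (Polynomial.X : Polynomial ℚ) ^ (c.card * (d - i))) := by
    apply Polynomial.coe_injective
    have hpr : ∀ (s : Finset (Finset (Fin r × Fin d))), ((∏ O ∈ s, (1 - (Polynomial.X : Polynomial ℚ) ^ O.card) : Polynomial ℚ) : PowerSeries ℚ)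
        = ∏ O ∈ s, (1 - (PowerSeries.X : PowerSeries ℚ) ^ O.card) := by
      intro s
      have := map_prod (Polynomial.coeToPowerSeries.ringHom (R := ℚ)) (fun O : Finset (Fin r × Fin d) =>
        (1 - (Polynomial.X : Polynomial ℚ) ^ O.card)) s
      rw [Polynomial.coeToPowerSeries.ringHom_apply] at this
      rw [this]
      apply Finset.prod_congr rfl
      intro O _
      rw [Polynomial.coeToPowerSeries.ringHom_apply]
      simp
    have hpr2 : ((∏ c ∈ cyc (1 : Equiv.Perm (Fin r)), ∏ i ∈ range d, (1 - (Polynomial.X : Polynomial ℚ) ^ (c.card * (d - i))) : Polynomial ℚ) : PowerSeries ℚ)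
        = Pj d (1 : Equiv.Perm (Fin r)) d := by
      unfold Pj
      have := map_prod (Polynomial.coeToPowerSeries.ringHom (R := ℚ)) (fun c : Finset (Fin r) =>
        ∏ i ∈ range d, (1 - (Polynomial.X : Polynomial ℚ) ^ (c.card * (d - i)))) (cyc (1 : Equiv.Perm (Fin r)))
      rw [Polynomial.coeToPowerSeries.ringHom_apply] at this
      rw [this]
      apply Finset.prod_congr rfl
      intro c _
      rw [map_prod]
      apply Finset.prod_congr rfl
      intro i _
      rw [Polynomial.coeToPowerSeries.ringHom_apply]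
      simp
    rw [Polynomial.coe_mul, hpr, hpr2, h1]
  have hc1 : (cyc (1 : Equiv.Perm (Fin r))) = univ.image (fun i => ({i} : Finset (Fin r))) := by
    unfold cyc
    apply Finset.image_congr
    intro i _
    exact card_cl_one i
  rw [hc1, Finset.prod_image (fun a _ b _ h => by simpa using h)] at h2
  simp only [Finset.card_singleton, one_mul, Finset.prod_const, Finset.card_univ, Fintype.card_fin] at h2
  simp_rw [← gs_mul] at h2
  rw [Finset.prod_mul_distrib, Finset.prod_mul_distrib, Finset.prod_const, Finset.prod_const, Finset.card_range,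
    mul_pow, ← pow_mul] at h2
  have hcard : (cyc u).card ≤ r * d := by
    unfold cyc
    refine Finset.card_image_le.trans ?_
    simp
  have h3 : p * (∏ O ∈ cyc u, gs O.card) = (1 - Polynomial.X) ^ (r * d - (cyc u).card) * (∏ i ∈ range d, gs (d - i)) ^ r := by
    have hne : (1 - (Polynomial.X : Polynomial ℚ)) ^ (cyc u).card ≠ 0 := by
      apply pow_ne_zero
      intro h0
      have := congrArg (Polynomial.eval 0) h0
      simp at this
    apply mul_left_cancel₀ hne
    rw [← mul_assoc _ ((1 - Polynomial.X) ^ (r * d - (cyc u).card)), ← pow_add,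
      show (cyc u).card + (r * d - (cyc u).card) = d * r by rw [mul_comm d r]; omega, ← h2]
    ring
  have h4 := congrArg (Polynomial.eval 1) h3
  simp only [Polynomial.eval_mul, Polynomial.eval_prod, gs_eval, Polynomial.eval_pow, Polynomial.eval_sub,
    Polynomial.eval_one, Polynomial.eval_X, sub_self] at h4
  by_cases hu : u = 1
  · subst hu
    rw [if_pos rfl]
    have hc2 : (cyc (1 : Equiv.Perm (Fin r × Fin d))) = univ.image (fun i => ({i} : Finset (Fin r × Fin d))) := by
      unfold cyc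
      apply Finset.image_congr
      intro i _
      ext j; rw [mem_cl, Equiv.Perm.sameCycle_one, mem_singleton, eq_comm]
    rw [hc2, Finset.prod_image (fun a _ b _ h => by simpa using h), Finset.card_image_of_injective _ (fun a b h => by simpa using h)] at h4
    simp only [Finset.card_singleton, Nat.cast_one, Finset.prod_const_one, mul_one, Finset.card_univ, Fintype.card_prod,
      Fintype.card_fin, Nat.sub_self, pow_zero, one_mul] at h4
    rw [h4]
    push_cast
    congr 1
    rw [← Nat.descFactorial_self, Nat.descFactorial_eq_prod_range]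
    push_cast
    rfl
  · rw [if_neg hu]
    have hlt : (cyc u).card < r * d := by
      apply lt_of_le_of_ne hcard
      intro heq
      apply hu
      have h5 : (univ.image (cl u)).card = (univ : Finset (Fin r × Fin d)).card := by
        rw [card_V]; exact heq
      rw [Finset.card_image_iff] at h5
      ext1 v
      have h6 := h5 (by simp) (by simp) (cl_apply u v)
      rw [h6]; rfl
    rw [zero_pow (by omega), zero_mul] at h4
    rcases mul_eq_zero.mp h4 with h5 | h5
    · exact h5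
    · exfalso
      rw [Finset.prod_eq_zero_iff] at h5
      obtain ⟨O, hO, hO2⟩ := h5
      obtain ⟨v, rfl⟩ := mem_cyc.mp hO
      have : 0 < (cl u v).card := Finset.card_pos.mpr ⟨v, self_mem_cl u v⟩
      have h6 : ((cl u v).card : ℚ) ≠ 0 := by exact_mod_cast this.ne'
      exact h6 hO2

lemma card_Yng : d.factorial ^ r ≤ Fintype.card (Yng r d) := by
  have h : Fintype.card (Fin r → Equiv.Perm (Fin d)) = d.factorial ^ r := by
    rw [Fintype.card_fun, Fintype.card_perm]; simp
  rw [← h]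
  apply Fintype.card_le_of_injective (fun f => (⟨Equiv.prodCongrRight f, fun v => rfl⟩ : Yng r d))
  intro f g hfg
  have h2 := congrArg Subtype.val hfg
  funext i
  ext j
  have h3 := DFunLike.congr_fun h2 (i, j)
  simp only [Equiv.prodCongrRight_apply, Prod.mk.injEq, true_and] at h3
  rw [h3]

/-- dimension of the invariants of `B_d` -/
lemma sum_finrank_InvS_le : ∑ m ∈ range (r * d * d + 1), finrank ℚ (InvS r d d 0 m) ≤ 1 := by
  have hO : Over (1 : Equiv.Perm (Fin r × Fin d)) 1 := fun _ => rfl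
  have h1 : ∀ m, (finrank ℚ (InvS r d d 0 m) : ℚ) = ichi hO d 0 m := by
    intro m
    rw [← LinearMap.trace_id]
    unfold ichi
    congr 1
    ext x
    change (x : (homogeneousSubmodule (Fin r × Fin d) ℚ m ⧸ gp (Jk r d d 0) m)) = act hO d 0 m x
    rw [act_one]
  have h2 : (∑ m ∈ range (r * d * d + 1), finrank ℚ (InvS r d d 0 m) : ℚ) =
      (Fintype.card (Yng r d) : ℚ)⁻¹ * ((d.factorial ^ r : ℕ) : ℚ) := by
    simp_rw [h1, ichi_eq]
    rw [← Finset.mul_sum, Finset.sum_comm]
    congr 1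
    have h3 : ∀ u : Yng r d, ∑ m ∈ range (r * d * d + 1), chi (1 * (u : Equiv.Perm (Fin r × Fin d))) (Jk r d d 0)
        (Stab_Jk (Over_mul_yng hO u.2) d 0) m = if u = 1 then ((d.factorial ^ r : ℕ) : ℚ) else 0 := by
      intro u
      have h4 : Over (1 * (u : Equiv.Perm (Fin r × Fin d))) 1 := by rw [one_mul]; exact u.2
      rw [eval_one h4]
      have : (1 * (u : Equiv.Perm (Fin r × Fin d)) = 1) ↔ u = 1 := by
        rw [one_mul]; exact OneMemClass.coe_eq_one
      simp only [this]
    rw [Finset.sum_congr rfl (fun u _ => h3 u)]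
    simp
  have hpos : (0 : ℚ) < Fintype.card (Yng r d) := by exact_mod_cast Fintype.card_pos
  have h5 : (∑ m ∈ range (r * d * d + 1), finrank ℚ (InvS r d d 0 m) : ℚ) ≤ 1 := by
    rw [h2, inv_mul_le_iff₀ hpos, mul_one]
    exact_mod_cast card_Yng
  exact_mod_cast h5

end main

end Pool.Agent.H30.BQR
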