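import Pool.Agent.H30.BQR.Sym

set_option autoImplicit false
set_option linter.unusedSectionVars false

namespace Pool.Agent.H30.BQR

open MvPolynomial Finset

section cov
variable {R : Type*} [CommRing R] [Algebra ℚ R]

/-- `R / I` is spanned by at most `n` elements over `ℚ` -/
def Cov (I : Ideal R) (n : ℕ) : Prop :=
  ∃ S : Finset R, S.card ≤ n ∧ ∀ f, ∃ g ∈ Submodule.span ℚ (S : Set R), f - g ∈ I

lemma Cov.mono {I J : Ideal R} (h : I ≤ J) {n : ℕ} (hc : Cov I n) : Cov J n := by
  obtain ⟨S, h1, h2⟩ := hc
  refine ⟨S, h1, fun f => ?_⟩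
  obtain ⟨g, h3, h4⟩ := h2 f
  exact ⟨g, h3, h h4⟩

lemma Cov.filt [DecidableEq R] (I : Ideal R) (x : R) (K : ℕ) (hK : x ^ K ∈ I) (L : ℕ → Ideal R) (n : ℕ → ℕ)
    (hL : ∀ j < K, ∀ f ∈ L j, x ^ j * f ∈ I ⊔ Ideal.span {x ^ (j + 1)})
    (hc : ∀ j < K, Cov (L j) (n j)) : Cov I (∑ j ∈ range K, n j) := by
  choose! S hS1 hS2 using hc
  set S' : Finset R := (range K).biUnion fun j => (S j).image (x ^ j * ·) with hS'
  refine ⟨S', ?_, ?_⟩
  · refine Finset.card_biUnion_le.trans (Finset.sum_le_sum fun j hj => ?_)
    exact Finset.card_image_le.trans (hS1 j (mem_range.mp hj))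
  · have key : ∀ e, e ≤ K → ∀ f, ∃ g ∈ Submodule.span ℚ (S' : Set R), x ^ (K - e) * f - g ∈ I := by
      intro e
      induction e with
      | zero =>
        intro _ f
        refine ⟨0, Submodule.zero_mem _, ?_⟩
        rw [sub_zero, Nat.sub_zero]
        exact I.mul_mem_right _ hK
      | succ e ih =>
        intro he f
        obtain ⟨g0, hg0, hf⟩ := hS2 (K - (e + 1)) (by omega) f
        have h1 := hL (K - (e + 1)) (by omega) _ hf
        rw [show K - (e + 1) + 1 = K - e by omega] at h1
        obtain ⟨a, ha, b, hb, hab⟩ := Submodule.mem_sup.mp h1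
        obtain ⟨f1, rfl⟩ := Ideal.mem_span_singleton'.mp hb
        obtain ⟨g1, hg1, h2⟩ := ih (by omega) f1
        refine ⟨x ^ (K - (e + 1)) * g0 + g1, Submodule.add_mem _ ?_ hg1, ?_⟩
        · have h3 : Submodule.map (LinearMap.mulLeft ℚ (x ^ (K - (e + 1)))) (Submodule.span ℚ (S (K - (e+1)) : Set R))
              ≤ Submodule.span ℚ (S' : Set R) := by
            rw [Submodule.map_span]
            apply Submodule.span_mono
            rintro _ ⟨y, hy, rfl⟩
            simp only [hS', Finset.coe_biUnion, Set.mem_iUnion, Finset.coe_image]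
            exact ⟨K - (e + 1), by simp; omega, y, hy, rfl⟩
          exact h3 ⟨g0, hg0, rfl⟩
        · have : x ^ (K - (e + 1)) * f - (x ^ (K - (e + 1)) * g0 + g1) = a + (x ^ (K - e) * f1 - g1) := by
            linear_combination -hab
          rw [this]
          exact I.add_mem ha h2
    intro f
    have := key K le_rfl f
    simpa using this

lemma Cov.finite {I : Ideal R} {n : ℕ} (hc : Cov I n) : Module.Finite ℚ (R ⧸ I) ∧ Module.finrank ℚ (R ⧸ I) ≤ n := by
  classical
  obtain ⟨S, h1, h2⟩ := hc
  set q : R →ₗ[ℚ] R ⧸ I := (Ideal.Quotient.mkₐ ℚ I).toLinearMap with hq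
  have hspan : Submodule.span ℚ ((S.image q : Finset (R ⧸ I)) : Set (R ⧸ I)) = ⊤ := by
    rw [eq_top_iff]
    rintro y -
    obtain ⟨f, rfl⟩ := Ideal.Quotient.mk_surjective y
    obtain ⟨g, hg, hfg⟩ := h2 f
    have h3 : (Ideal.Quotient.mk I) f = q g := by
      rw [hq]
      exact Ideal.Quotient.eq.mpr hfg
    rw [h3, Finset.coe_image, ← Submodule.map_span]
    exact ⟨g, hg, rfl⟩
  constructor
  · exact ⟨⟨S.image q, hspan⟩⟩
  · have h4 := finrank_span_finset_le_card (R := ℚ) (S.image q)
    rw [Set.finrank, hspan, finrank_top] at h4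
    exact h4.trans (Finset.card_image_le.trans h1)

end cov

variable {V ι : Type*} [DecidableEq V] [DecidableEq ι]

/-- the part of `T` in the batch `i` -/
def bt (β : V → ι) (T : Finset V) (i : ι) : Finset V := T.filter (fun v => β v = i)

/-- generators -/
def Idg (β : V → ι) (T : Finset V) (κ : ι → ℕ) (s : ℕ) : Set (MvPolynomial V ℚ) :=
  {f | (∃ v, v ∉ T ∧ f = X v) ∨ (∃ i m, κ i < m + (bt β T i).card ∧ f = hh (bt β T i) m) ∨
    (∃ m, T.card < m + s ∧ f = em T m)}

/-- the ideal -/
noncomputable def Idl (β : V → ι) (T : Finset V) (κ : ι → ℕ) (s : ℕ) : Ideal (MvPolynomial V ℚ) :=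
  Ideal.span (Idg β T κ s)

lemma Idl_X {β : V → ι} {T : Finset V} {κ : ι → ℕ} {s : ℕ} {v : V} (hv : v ∉ T) :
    (X v : MvPolynomial V ℚ) ∈ Idl β T κ s := Ideal.subset_span (Or.inl ⟨v, hv, rfl⟩)

lemma Idl_hh {β : V → ι} {T : Finset V} {κ : ι → ℕ} {s : ℕ} {i : ι} {m : ℕ}
    (h : κ i < m + (bt β T i).card) : hh (bt β T i) m ∈ Idl β T κ s :=
  Ideal.subset_span (Or.inr (Or.inl ⟨i, m, h, rfl⟩))

lemma Idl_em {β : V → ι} {T : Finset V} {κ : ι → ℕ} {s : ℕ} {m : ℕ}
    (h : T.card < m + s) : em T m ∈ Idl β T κ s :=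
  Ideal.subset_span (Or.inr (Or.inr ⟨m, h, rfl⟩))

lemma bt_insert_self {β : V → ι} {T : Finset V} (v : V) :
    bt β (insert v T) (β v) = insert v (bt β T (β v)) := by
  simp [bt, Finset.filter_insert]

lemma bt_insert_ne {β : V → ι} {T : Finset V} {v : V} {i : ι} (h : i ≠ β v) :
    bt β (insert v T) i = bt β T i := by
  simp [bt, Finset.filter_insert, h.symm]

lemma notMem_bt {β : V → ι} {T : Finset V} {v : V} (hv : v ∉ T) (i : ι) : v ∉ bt β T i := by
  simp [bt, hv]

lemma Xpow_mem {β : V → ι} {T : Finset V} {κ : ι → ℕ} {s : ℕ} {v : V} (hv : v ∈ T) :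
    (X v : MvPolynomial V ℚ) ^ (κ (β v)) ∈ Idl β T κ s := by
  have hv' : v ∈ bt β T (β v) := by simp [bt, hv]
  rw [X_pow_eq hv']
  refine Ideal.sum_mem _ fun p hp => ?_
  rw [Finset.HasAntidiagonal.mem_antidiagonal] at hp
  by_cases h : (bt β T (β v)).card ≤ p.2
  · rw [em_eq_zero (m := p.2), mul_zero]
    · exact Ideal.zero_mem _
    · rw [Finset.card_erase_of_mem hv']
      have := Finset.card_pos.mpr ⟨v, hv'⟩
      omega
  · exact Ideal.mul_mem_right _ _ (Idl_hh (by omega))

/-- key lemma -/
lemma Xpow_mul_em {β : V → ι} {T : Finset V} {κ : ι → ℕ} {s : ℕ} {v : V} (hv : v ∉ T) (l : ℕ) :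
    l ≤ s → ∀ m, T.card < m + l → (X v : MvPolynomial V ℚ) ^ l * em T m ∈ Idl β (insert v T) κ s := by
  induction l with
  | zero =>
    intro _ m hm
    rw [em_eq_zero (by simpa using hm), mul_zero]
    exact Ideal.zero_mem _
  | succ l ih =>
    intro hl m hm
    have h1 := em_insert hv m
    have h2 : (X v : MvPolynomial V ℚ) ^ (l + 1) * em T m =
        X v ^ l * em T (m + 1) - X v ^ l * em (insert v T) (m + 1) := by
      rw [h1]; ring
    rw [h2]
    refine Ideal.sub_mem _ (ih (by omega) (m + 1) (by omega)) (Ideal.mul_mem_left _ _ (Idl_em ?_))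
    rw [Finset.card_insert_of_notMem hv]
    omega

lemma step_mem {β : V → ι} {T : Finset V} {κ : ι → ℕ} {s : ℕ} {v : V} (hv : v ∉ T) (hκ : 0 < κ (β v))
    (s' j : ℕ) (hs' : s' + 1 = s ∨ (s' = s ∧ s ≤ j)) :
    ∀ f ∈ Idl β T (Function.update κ (β v) (κ (β v) - 1)) s',
      (X v : MvPolynomial V ℚ) ^ j * f ∈ Idl β (insert v T) κ s ⊔ Ideal.span {X v ^ (j + 1)} := by
  intro f hf
  have hx : (X v : MvPolynomial V ℚ) ^ (j + 1) ∈ Idl β (insert v T) κ s ⊔ Ideal.span {X v ^ (j + 1)} :=
    Ideal.mem_sup_right (Ideal.subset_span rfl)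
  unfold Idl at hf
  induction hf using Submodule.span_induction with
  | zero => rw [mul_zero]; exact Ideal.zero_mem _
  | add a b _ _ ha hb => rw [mul_add]; exact Ideal.add_mem _ ha hb
  | smul a b _ hb =>
    rw [smul_eq_mul, mul_left_comm]; exact Ideal.mul_mem_left _ _ hb
  | mem f hf =>
    rcases hf with ⟨w, hw, rfl⟩ | ⟨i, m, hm, rfl⟩ | ⟨m, hm, rfl⟩
    · by_cases h : w = v
      · subst h
        rw [← pow_succ]; exact hx
      · exact Ideal.mul_mem_left _ _ (Ideal.mem_sup_left (Idl_X (by simp [h, hw])))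
    · by_cases h : i = β v
      · subst h
        rw [Function.update_self] at hm
        have hc : (bt β (insert v T) (β v)).card = (bt β T (β v)).card + 1 := by
          rw [bt_insert_self, Finset.card_insert_of_notMem (notMem_bt hv _)]
        cases m with
        | zero =>
          rw [hh_zero, mul_one]
          have h1 : (1 : MvPolynomial V ℚ) ∈ Idl β (insert v T) κ s := by
            rw [← hh_zero (bt β (insert v T) (β v))]
            exact Idl_hh (by omega)
          rw [← mul_one (X v ^ j)]
          exact Ideal.mul_mem_left _ _ (Ideal.mem_sup_left h1)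
        | succ m =>
          have h1 := hh_insert (notMem_bt (β := β) hv (β v)) m
          rw [← bt_insert_self] at h1
          have h2 : (X v : MvPolynomial V ℚ) ^ j * hh (bt β T (β v)) (m + 1) =
              X v ^ j * hh (bt β (insert v T) (β v)) (m + 1) - hh (bt β (insert v T) (β v)) m * X v ^ (j + 1) := by
            rw [h1]; ring
          rw [h2]
          exact Ideal.sub_mem _ (Ideal.mul_mem_left _ _ (Ideal.mem_sup_left (Idl_hh (by omega))))
            (Ideal.mul_mem_left _ _ hx)
      · rw [Function.update_of_ne h] at hm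
        rw [← bt_insert_ne h] at hm ⊢
        exact Ideal.mul_mem_left _ _ (Ideal.mem_sup_left (Idl_hh hm))
    · rcases hs' with hs' | ⟨rfl, hj⟩
      · cases m with
        | zero =>
          rw [em_zero, mul_one]
          have h1 : (1 : MvPolynomial V ℚ) ∈ Idl β (insert v T) κ s := by
            rw [← em_zero (insert v T)]
            apply Idl_em
            rw [Finset.card_insert_of_notMem hv]; omega
          rw [← mul_one (X v ^ j)]
          exact Ideal.mul_mem_left _ _ (Ideal.mem_sup_left h1)
        | succ m =>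
          have h1 := em_insert hv m
          have h2 : (X v : MvPolynomial V ℚ) ^ j * em T (m + 1) =
              X v ^ j * em (insert v T) (m + 1) + em T m * X v ^ (j + 1) := by
            rw [h1]; ring
          rw [h2]
          refine Ideal.add_mem _ (Ideal.mul_mem_left _ _ (Ideal.mem_sup_left (Idl_em ?_)))
            (Ideal.mul_mem_left _ _ hx)
          rw [Finset.card_insert_of_notMem hv]; omega
      · have h1 := Xpow_mul_em (β := β) (κ := κ) (s := s') hv s' le_rfl m hm
        have h2 : (X v : MvPolynomial V ℚ) ^ j * em T m = X v ^ (j - s') * (X v ^ s' * em T m) := by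
          rw [← mul_assoc, ← pow_add]; congr 2; omega
        rw [h2]
        exact Ideal.mul_mem_left _ _ (Ideal.mem_sup_left h1)

/-- falling factorials -/
def ff (z : ℤ) (m : ℕ) : ℤ := ∏ j ∈ range m, (z - j)

lemma ff_succ (z : ℤ) (m : ℕ) : ff z (m + 1) = z * ff (z - 1) m := by
  unfold ff
  rw [Finset.prod_range_succ']
  simp only [Nat.cast_add, Nat.cast_one, Nat.cast_zero, sub_zero]
  rw [mul_comm]
  congr 1
  exact Finset.prod_congr rfl fun j _ => by ring

variable [Fintype ι]

def Pt (β : V → ι) (T : Finset V) (κ : ι → ℤ) (t : ℕ) : ℤ := ∏ i, ff (κ i - t) (bt β T i).card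

def Nt (β : V → ι) (T : Finset V) (κ : ι → ℤ) (s : ℕ) : ℤ :=
  ∑ t ∈ range (s + 1), (-1) ^ t * (s.choose t : ℤ) * Pt β T κ t

lemma Pt_insert {β : V → ι} {T : Finset V} {κ : ι → ℤ} {v : V} (hv : v ∉ T) (t : ℕ) :
    Pt β (insert v T) κ t = (κ (β v) - t) * Pt β T (Function.update κ (β v) (κ (β v) - 1)) t := by
  unfold Pt
  rw [← Finset.mul_prod_erase univ _ (mem_univ (β v)), ← Finset.mul_prod_erase univ (fun i =>
    ff (Function.update κ (β v) (κ (β v) - 1) i - t) (bt β T i).card) (mem_univ (β v))]
  rw [bt_insert_self, Finset.card_insert_of_notMem (notMem_bt hv _), ff_succ, Function.update_self,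
    mul_assoc]
  congr 2
  · congr 1; ring
  · apply Finset.prod_congr rfl
    intro i hi
    rw [mem_erase] at hi
    rw [Function.update_of_ne hi.1, bt_insert_ne hi.1]

lemma Nt_insert {β : V → ι} {T : Finset V} {κ : ι → ℤ} {v : V} (hv : v ∉ T) (s : ℕ) :
    Nt β (insert v T) κ s = s * Nt β T (Function.update κ (β v) (κ (β v) - 1)) (s - 1) +
      (κ (β v) - s) * Nt β T (Function.update κ (β v) (κ (β v) - 1)) s := by
  unfold Nt
  simp_rw [Pt_insert hv]
  cases s with
  | zero => simp
  | succ s =>
    rw [Nat.add_sub_cancel]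
    have h1 : ∑ t ∈ range (s + 1), (-1) ^ t * (s.choose t : ℤ) *
        Pt β T (Function.update κ (β v) (κ (β v) - 1)) t = ∑ t ∈ range (s + 1 + 1), (-1) ^ t * (s.choose t : ℤ) *
        Pt β T (Function.update κ (β v) (κ (β v) - 1)) t := by
      rw [Finset.sum_range_succ _ (s + 1), Nat.choose_succ_self]
      simp
    rw [h1, Finset.mul_sum, Finset.mul_sum, ← Finset.sum_add_distrib]
    apply Finset.sum_congr rfl
    intro t ht
    rw [mem_range] at ht
    have h2 := Nat.choose_mul_succ_eq s t
    have h3 : ((s.choose t : ℤ)) * (s + 1) = ((s + 1).choose t : ℤ) * (s + 1 - t) := by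
      have : ((s + 1 - t : ℕ) : ℤ) = s + 1 - t := by
        rw [Nat.cast_sub (by omega)]; push_cast; ring
      rw [← this]
      exact_mod_cast h2
    push_cast
    linear_combination (-(-1) ^ t * Pt β T (Function.update κ (β v) (κ (β v) - 1)) t) * h3

theorem cov_Idl (β : V → ι) (T : Finset V) : ∀ (κ : ι → ℕ) (s : ℕ), (∀ i, s ≤ κ i) →
    ∃ n : ℕ, (n : ℤ) = Nt β T (fun i => (κ i : ℤ)) s ∧ Cov (Idl β T κ s) n := by
  classical
  induction T using Finset.induction_on with
  | empty =>
    intro κ s hs
    have hP : ∀ t, Pt β (∅ : Finset V) (fun i => (κ i : ℤ)) t = 1 := by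
      intro t; unfold Pt bt ff; simp
    cases s with
    | zero =>
      refine ⟨1, by simp [Nt, hP], {1}, by simp, fun f => ?_⟩
      refine ⟨C (constantCoeff f), ?_, ?_⟩
      · rw [Finset.coe_singleton, Submodule.mem_span_singleton]
        exact ⟨constantCoeff f, by rw [← MvPolynomial.algebraMap_eq, Algebra.algebraMap_eq_smul_one]⟩
      · induction f using MvPolynomial.induction_on with
        | C a => simp
        | add p q hp hq =>
          have : p + q - C (constantCoeff (p + q)) = (p - C (constantCoeff p)) + (q - C (constantCoeff q)) := by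
            rw [map_add, map_add]; ring
          rw [this]; exact Ideal.add_mem _ hp hq
        | mul_X p v hp =>
          rw [map_mul, constantCoeff_X, mul_zero, map_zero, sub_zero]
          exact Ideal.mul_mem_left _ _ (Idl_X (by simp))
    | succ s =>
      refine ⟨0, ?_, ∅, by simp, fun f => ⟨0, Submodule.zero_mem _, ?_⟩⟩
      · unfold Nt
        simp_rw [hP, mul_one]
        have := Int.alternating_sum_range_choose_of_ne (n := s + 1) (by omega)
        rw [this]; simp
      · have h1 : (1 : MvPolynomial V ℚ) ∈ Idl β (∅ : Finset V) κ (s + 1) := by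
          rw [← em_zero (∅ : Finset V)]
          exact Idl_em (by simp)
        rw [(Ideal.eq_top_iff_one _).mpr h1]; trivial
  | insert v T hv ih =>
    intro κ s hs
    set κ' : ι → ℕ := Function.update κ (β v) (κ (β v) - 1) with hκ'
    have hκ'1 : ∀ i, s - 1 ≤ κ' i := by
      intro i
      have := hs i
      rw [hκ']
      by_cases h : i = β v
      · subst h; rw [Function.update_self]; omega
      · rw [Function.update_of_ne h]; omega
    by_cases h0 : κ (β v) = 0
    · have hs0 : s = 0 := by have := hs (β v); omega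
      subst hs0
      refine ⟨0, ?_, ?_⟩
      · rw [Nt_insert hv]; simp [h0]
      · have := Cov.filt (Idl β (insert v T) κ 0) (X v) (κ (β v)) (Xpow_mem (by simp)) (fun _ => ⊤) (fun _ => 0)
          (by rw [h0]; simp) (by rw [h0]; simp)
        rw [h0] at this
        simpa using this
    · have hup : (fun i => (κ' i : ℤ)) = Function.update (fun i => (κ i : ℤ)) (β v) ((κ (β v) : ℤ) - 1) := by
        funext i
        rw [hκ']
        by_cases h : i = β v
        · subst h
          rw [Function.update_self, Function.update_self]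
          rw [Nat.cast_sub (by omega)]; simp
        · rw [Function.update_of_ne h, Function.update_of_ne h]
      obtain ⟨n1, hn1, hc1⟩ := ih κ' (s - 1) hκ'1
      rw [hup] at hn1
      have h2 : ∃ n2 : ℕ, ((κ (β v) - s : ℕ) : ℤ) * n2 = ((κ (β v) : ℤ) - s) *
          Nt β T (Function.update (fun i => (κ i : ℤ)) (β v) ((κ (β v) : ℤ) - 1)) s ∧
          (s < κ (β v) → Cov (Idl β T κ' s) n2) := by
        by_cases h : s < κ (β v)
        · obtain ⟨n2, hn2, hc2⟩ := ih κ' s (by
            intro i
            have := hs i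
            rw [hκ']
            by_cases h : i = β v
            · subst h; rw [Function.update_self]; omega
            · rw [Function.update_of_ne h]; omega)
          rw [hup] at hn2
          refine ⟨n2, ?_, fun _ => hc2⟩
          rw [← hn2, Nat.cast_sub h.le]
        · have h3 : κ (β v) = s := by have := hs (β v); omega
          refine ⟨0, ?_, fun h4 => absurd h4 h⟩
          rw [h3]; simp
      obtain ⟨n2, hn2, hc2⟩ := h2
      refine ⟨∑ j ∈ range (κ (β v)), (if j < s then n1 else n2), ?_, ?_⟩
      · rw [Nt_insert hv]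
        have h4 : ∑ j ∈ range (κ (β v)), (if j < s then n1 else n2) = s * n1 + (κ (β v) - s) * n2 := by
          have hk : κ (β v) = s + (κ (β v) - s) := by have := hs (β v); omega
          conv_lhs => rw [hk]
          rw [Finset.sum_range_add]
          congr 1
          · rw [Finset.sum_congr rfl (fun j hj => if_pos (mem_range.mp hj))]; simp
          · rw [Finset.sum_congr rfl (fun j hj => if_neg (by omega))]; simp
        rw [h4]
        push_cast
        rw [hn2, hn1]
      · refine Cov.filt (Idl β (insert v T) κ s) (X v) (κ (β v)) (Xpow_mem (by simp))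
          (fun j => if j < s then Idl β T κ' (s - 1) else Idl β T κ' s) _ ?_ ?_
        · intro j hj f hf
          by_cases h : j < s
          · simp only [h, if_true] at hf
            exact step_mem hv (by omega) (s - 1) j (Or.inl (by omega)) f hf
          · simp only [h, if_false] at hf
            exact step_mem hv (by omega) s j (Or.inr ⟨rfl, by omega⟩) f hf
        · intro j hj
          by_cases h : j < s
          · simp only [h, if_true]; exact hc1
          · simp only [h, if_false]; exact hc2 (by omega)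

end Pool.Agent.H30.BQR
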