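import Pool.Agent.H30.BQR.Ide

set_option autoImplicit false
set_option linter.unusedSectionVars false

namespace Pool.Agent.H30.BQR

open MvPolynomial Finset Module

section graded
variable {V : Type*} [Fintype V] [DecidableEq V]

attribute [local instance] MvPolynomial.gradedAlgebra

/-- closed under homogeneous components -/
def Hg (I : Ideal (MvPolynomial V ℚ)) : Prop := ∀ f ∈ I, ∀ m, homogeneousComponent m f ∈ I

lemma Hg_span (s : Set (MvPolynomial V ℚ)) (h : ∀ x ∈ s, ∃ m, x ∈ homogeneousSubmodule V ℚ m) :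
    Hg (Ideal.span s) := by
  intro f hf m
  exact homogeneousComponent_mem_of_mem (Ideal.homogeneous_span (homogeneousSubmodule V ℚ) s h) hf m

lemma comp_mul {e : MvPolynomial V ℚ} {l : ℕ} (he : e ∈ homogeneousSubmodule V ℚ l) (m : ℕ)
    (g : MvPolynomial V ℚ) :
    homogeneousComponent m (e * g) = if l ≤ m then e * homogeneousComponent (m - l) g else 0 := by
  induction g using MvPolynomial.induction_on' with
  | monomial c a =>
    have h1 : monomial c a ∈ homogeneousSubmodule V ℚ c.degree := isHomogeneous_monomial _ rfl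
    have h2 : e * monomial c a ∈ homogeneousSubmodule V ℚ (l + c.degree) :=
      IsHomogeneous.mul he h1
    rw [homogeneousComponent_of_mem h2, homogeneousComponent_of_mem h1]
    by_cases h : l ≤ m
    · rw [if_pos h]
      by_cases h' : m = l + c.degree
      · rw [if_pos h', if_pos (by omega)]
      · rw [if_neg h', if_neg (by omega), mul_zero]
    · rw [if_neg h, if_neg (by omega)]
  | add p q hp hq =>
    rw [mul_add, map_add, hp, hq, map_add]
    split_ifs
    · ring
    · simp

end graded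

section rk
variable {R : Type*} [CommRing R] [Algebra ℚ R]

/-- colon ideal -/
def colon (I : Ideal R) (e : R) : Ideal R := Submodule.comap (LinearMap.mulLeft R e) I

lemma mem_colon {I : Ideal R} {e f : R} : f ∈ colon I e ↔ e * f ∈ I := Iff.rfl

lemma le_colon (I : Ideal R) (e : R) : I ≤ colon I e := fun f hf => I.mul_mem_left e hf

lemma finite_of_le {I L : Ideal R} (h : I ≤ L) [Module.Finite ℚ (R ⧸ I)] : Module.Finite ℚ (R ⧸ L) :=
  Module.Finite.of_surjective ((Ideal.Quotient.factorₐ ℚ h).toLinearMap) (by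
    intro x
    obtain ⟨x, rfl⟩ := Ideal.Quotient.mk_surjective x
    exact ⟨Ideal.Quotient.mk I x, rfl⟩)

lemma finrank_le_of_le {I L : Ideal R} (h : I ≤ L) [Module.Finite ℚ (R ⧸ I)] :
    finrank ℚ (R ⧸ L) ≤ finrank ℚ (R ⧸ I) :=
  LinearMap.finrank_le_finrank_of_surjective (f := (Ideal.Quotient.factorₐ ℚ h).toLinearMap) (by
    intro x
    obtain ⟨x, rfl⟩ := Ideal.Quotient.mk_surjective x
    exact ⟨Ideal.Quotient.mk I x, rfl⟩)

lemma eq_of_le_of_finrank {I L : Ideal R} (h : I ≤ L) [Module.Finite ℚ (R ⧸ I)]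
    (he : finrank ℚ (R ⧸ I) ≤ finrank ℚ (R ⧸ L)) : I = L := by
  have := finite_of_le h
  have hs : Function.Surjective (Ideal.Quotient.factorₐ ℚ h).toLinearMap := by
    intro x
    obtain ⟨x, rfl⟩ := Ideal.Quotient.mk_surjective x
    exact ⟨Ideal.Quotient.mk I x, rfl⟩
  have he' : finrank ℚ (R ⧸ I) = finrank ℚ (R ⧸ L) := le_antisymm he (finrank_le_of_le h)
  have hi : Function.Injective (Ideal.Quotient.factorₐ ℚ h).toLinearMap :=
    (LinearMap.injective_iff_surjective_of_finrank_eq_finrank he').mpr hs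
  apply le_antisymm h
  intro f hf
  have h1 : (Ideal.Quotient.factorₐ ℚ h).toLinearMap (Ideal.Quotient.mk I f) = 0 := by
    change Ideal.Quotient.mk L f = 0
    exact Ideal.Quotient.eq_zero_iff_mem.mpr hf
  have h2 : Ideal.Quotient.mk I f = 0 := hi (by rw [h1, map_zero])
  exact Ideal.Quotient.eq_zero_iff_mem.mp h2

lemma finrank_colon (I : Ideal R) (e : R) [Module.Finite ℚ (R ⧸ I)] :
    finrank ℚ (R ⧸ I) = finrank ℚ (R ⧸ colon I e) + finrank ℚ (R ⧸ (I ⊔ Ideal.span {e})) := by
  have := finite_of_le (le_colon I e)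
  have := finite_of_le (le_sup_left : I ≤ I ⊔ Ideal.span {e})
  have h := trace_exact (K := ℚ)
    ((Submodule.mapQ (colon I e) I (LinearMap.mulLeft R e) le_rfl).restrictScalars ℚ)
    (Ideal.Quotient.factorₐ ℚ (le_sup_left : I ≤ I ⊔ Ideal.span {e})).toLinearMap ?_ ?_ ?_
    LinearMap.id LinearMap.id LinearMap.id (fun _ => rfl) (fun _ => rfl)
  · rw [LinearMap.trace_id, LinearMap.trace_id, LinearMap.trace_id] at h
    exact_mod_cast h
  · rw [← LinearMap.ker_eq_bot, LinearMap.ker_eq_bot']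
    intro x hx
    obtain ⟨x, rfl⟩ := Submodule.mkQ_surjective _ x
    have hx' : e * x ∈ I := by
      have h2 : (Submodule.Quotient.mk (e * x) : R ⧸ I) = 0 := hx
      exact (Submodule.Quotient.mk_eq_zero I).mp h2
    exact (Submodule.Quotient.mk_eq_zero _).mpr hx'
  · intro x
    obtain ⟨x, rfl⟩ := Ideal.Quotient.mk_surjective x
    exact ⟨Ideal.Quotient.mk I x, rfl⟩
  · ext x
    obtain ⟨x, rfl⟩ := Ideal.Quotient.mk_surjective x
    rw [LinearMap.mem_ker, LinearMap.mem_range]
    constructor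
    · intro hx
      have hx' : x ∈ I ⊔ Ideal.span {e} := Ideal.Quotient.eq_zero_iff_mem.mp hx
      obtain ⟨a, ha, b, hb, hab⟩ := Submodule.mem_sup.mp hx'
      obtain ⟨g, rfl⟩ := Ideal.mem_span_singleton'.mp hb
      refine ⟨Submodule.Quotient.mk g, ?_⟩
      change Ideal.Quotient.mk I (e * g) = Ideal.Quotient.mk I x
      rw [Ideal.Quotient.eq, ← hab]
      have : e * g - (a + g * e) = -a := by ring
      rw [this]; exact I.neg_mem ha
    · rintro ⟨y, hy⟩
      obtain ⟨y, rfl⟩ := Submodule.mkQ_surjective _ y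
      have hy' : Ideal.Quotient.mk I (e * y) = Ideal.Quotient.mk I x := hy
      rw [← hy']
      change Ideal.Quotient.mk (I ⊔ Ideal.span {e}) (e * y) = 0
      exact Ideal.Quotient.eq_zero_iff_mem.mpr (Ideal.mem_sup_right (Ideal.mul_mem_right _ _ (Ideal.subset_span rfl)))

end rk

section main
variable {r d : ℕ}

/-- the ideals `J(k,s)` -/
noncomputable def Jk (r d k s : ℕ) : Ideal (MvPolynomial (Fin r × Fin d) ℚ) :=
  Idl Prod.fst univ (fun _ => k) s

lemma card_V : (univ : Finset (Fin r × Fin d)).card = r * d := by simp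

lemma card_bt (i : Fin r) : (bt Prod.fst (univ : Finset (Fin r × Fin d)) i).card = d := card_bat i

lemma Jk_hh {k s : ℕ} {i : Fin r} {m : ℕ} (h : k < m + d) : hh (bat r d i) m ∈ Jk r d k s := by
  unfold Jk bat
  apply Idl_hh
  rw [card_bt]; exact h

lemma Jk_em {k s m : ℕ} (h : r * d < m + s) : em univ m ∈ Jk r d k s := by
  unfold Jk
  apply Idl_em
  rw [card_V]; exact h

lemma Jk_le {k s : ℕ} {I : Ideal (MvPolynomial (Fin r × Fin d) ℚ)}
    (h1 : ∀ i m, k < m + d → hh (bat r d i) m ∈ I) (h2 : ∀ m, r * d < m + s → em univ m ∈ I) :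
    Jk r d k s ≤ I := by
  unfold Jk Idl
  rw [Ideal.span_le]
  rintro f (⟨v, hv, rfl⟩ | ⟨i, m, hm, rfl⟩ | ⟨m, hm, rfl⟩)
  · simp at hv
  · rw [card_bt] at hm
    exact h1 i m hm
  · rw [card_V] at hm
    exact h2 m hm

lemma Jk_succ {k s : ℕ} (hs : s ≤ r * d) :
    Jk r d k (s + 1) = Jk r d k s ⊔ Ideal.span {em univ (r * d - s)} := by
  apply le_antisymm
  · apply Jk_le
    · intro i m hm
      exact Ideal.mem_sup_left (Jk_hh hm)
    · intro m hm
      by_cases h : r * d < m + s
      · exact Ideal.mem_sup_left (Jk_em h)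
      · have : m = r * d - s := by omega
        rw [this]
        exact Ideal.mem_sup_right (Ideal.subset_span rfl)
  · apply sup_le
    · apply Jk_le
      · intro i m hm; exact Jk_hh hm
      · intro m hm; exact Jk_em (by omega)
    · rw [Ideal.span_le]
      rintro _ rfl
      exact Jk_em (by omega)

lemma Jk_colon {k s : ℕ} (hs : s ≤ k) (hsn : s ≤ r * d) :
    Jk r d k s ≤ colon (Jk r d (k + 1) s) (em univ (r * d - s)) := by
  apply Jk_le
  · intro i m hm
    rw [mem_colon]
    by_cases h : k + 1 < m + d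
    · exact Ideal.mul_mem_left _ _ (Jk_hh h)
    · have hm' : m + d = k + 1 := by omega
      have hsub : bat r d i ⊆ univ := Finset.subset_univ _
      have h1 := em_sdiff hsub (r * d - s + m)
      have hcard : (univ \ bat r d i).card = r * d - d := by
        rw [Finset.card_sdiff_of_subset hsub, card_V, card_bat]
      have hrd : d ≤ r * d := by
        have := Finset.card_le_card hsub
        rwa [card_V, card_bat] at this
      rw [em_eq_zero (by rw [hcard]; omega)] at h1
      rw [← Finset.add_sum_erase _ _ (show (r * d - s, m) ∈ antidiagonal (r * d - s + m) by simp)] at h1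
      have h2 : em univ (r * d - s) * hh (bat r d i) m =
          - ∑ x ∈ (antidiagonal (r * d - s + m)).erase (r * d - s, m), em univ x.1 * hh (bat r d i) x.2 := by
        linear_combination -h1
      rw [h2]
      refine (Ideal.neg_mem_iff _).mpr (Ideal.sum_mem _ fun p hp => ?_)
      rw [mem_erase, Finset.HasAntidiagonal.mem_antidiagonal] at hp
      by_cases h3 : r * d < p.1 + s
      · exact Ideal.mul_mem_right _ _ (Jk_em h3)
      · apply Ideal.mul_mem_left
        apply Jk_hh
        by_contra h4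
        apply hp.1
        have h5 : p.1 = r * d - s := by omega
        ext
        · exact h5
        · simp only; omega
  · intro m hm
    rw [mem_colon]
    exact Ideal.mul_mem_left _ _ (Jk_em hm)

/-- expected dimensions -/
def Gz (r d : ℕ) (z : ℤ) : ℤ := ff z d ^ r

def Nks (r d k s : ℕ) : ℤ := ∑ t ∈ range (s + 1), (-1) ^ t * (s.choose t : ℤ) * Gz r d (k - t)

lemma Nt_eq (k s : ℕ) : Nt Prod.fst (univ : Finset (Fin r × Fin d)) (fun _ => (k : ℤ)) s = Nks r d k s := by
  unfold Nt Nks Pt Gz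
  apply Finset.sum_congr rfl
  intro t _
  simp only [card_bt, Finset.prod_const, Finset.card_univ, Fintype.card_fin]

lemma Jk_bound {k s : ℕ} (hs : s ≤ k) :
    Module.Finite ℚ (MvPolynomial (Fin r × Fin d) ℚ ⧸ Jk r d k s) ∧
    (finrank ℚ (MvPolynomial (Fin r × Fin d) ℚ ⧸ Jk r d k s) : ℤ) ≤ Nks r d k s := by
  obtain ⟨n, hn, hc⟩ := cov_Idl Prod.fst (univ : Finset (Fin r × Fin d)) (fun _ => k) s (fun _ => hs)
  obtain ⟨h1, h2⟩ := hc.finite
  refine ⟨h1, ?_⟩
  rw [← Nt_eq, ← hn]
  exact_mod_cast h2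

lemma Nks_rec (k s : ℕ) : Nks r d (k + 1) s = Nks r d k s + Nks r d (k + 1) (s + 1) := by
  unfold Nks
  rw [Finset.sum_range_succ' _ (s + 1)]
  have h1 : ∀ t, (-1 : ℤ) ^ (t + 1) * ((s + 1).choose (t + 1) : ℤ) * Gz r d (((k + 1 : ℕ) : ℤ) - ((t + 1 : ℕ) : ℤ)) =
      (-1) * ((-1) ^ t * (s.choose t : ℤ) * Gz r d (k - t)) + (-1) ^ (t + 1) * (s.choose (t + 1) : ℤ) *
        Gz r d (((k + 1 : ℕ) : ℤ) - ((t + 1 : ℕ) : ℤ)) := by
    intro t
    rw [Nat.choose_succ_succ]
    have : ((k + 1 : ℕ) : ℤ) - ((t + 1 : ℕ) : ℤ) = k - t := by push_cast; ring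
    rw [this]
    push_cast
    ring
  simp_rw [h1]
  rw [Finset.sum_add_distrib, ← Finset.mul_sum]
  have h2 : ∑ t ∈ range (s + 1), (-1 : ℤ) ^ t * (s.choose t : ℤ) * Gz r d (((k + 1 : ℕ) : ℤ) - (t : ℤ)) =
      ∑ t ∈ range (s + 1), (-1 : ℤ) ^ (t + 1) * (s.choose (t + 1) : ℤ) * Gz r d (((k + 1 : ℕ) : ℤ) - ((t + 1 : ℕ) : ℤ)) +
        Gz r d ((k + 1 : ℕ)) := by
    rw [Finset.sum_range_succ' _ s, Finset.sum_range_succ _ s, Nat.choose_succ_self]
    simp
  rw [h2]
  simp
  ring

/-- bounded exponents -/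
lemma finrank_thI_ge {k : ℕ} (hdk : d ≤ k) [Module.Finite ℚ (MvPolynomial (Fin r × Fin d) ℚ ⧸ thI r d k)] :
    ∏ v : Fin r × Fin d, (k - (v.2 : ℕ)) ≤ finrank ℚ (MvPolynomial (Fin r × Fin d) ℚ ⧸ thI r d k) := by
  set ex : (∀ v : Fin r × Fin d, Fin (k - (v.2 : ℕ))) → (Fin r × Fin d →₀ ℕ) :=
    fun b => Finsupp.equivFunOnFinite.symm (fun v => (b v : ℕ)) with hex
  have hinj : Function.Injective ex := by
    intro b b' h
    funext v
    have := DFunLike.congr_fun h v
    exact Fin.ext this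
  have hq : ∀ b, qt k (ex b) = 0 := fun b => (qt_eq_zero_iff hdk).mpr fun v => (b v).2
  have hli : LinearIndependent ℚ (fun b => Ideal.Quotient.mk (thI r d k) (PhiB hdk (ex b))) := by
    rw [Fintype.linearIndependent_iff]
    intro g hg b0
    have h1 : ∑ b, g b • PhiB hdk (ex b) ∈ (thI r d k).restrictScalars ℚ := by
      rw [Submodule.restrictScalars_mem, ← Ideal.Quotient.eq_zero_iff_mem, map_sum, ← hg]
      apply Finset.sum_congr rfl
      intro b _
      rfl
    rw [thI_span hdk, Basis.mem_span_image] at h1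
    by_contra hne
    have h2 : ex b0 ∈ ((PhiB hdk).repr (∑ b, g b • PhiB hdk (ex b))).support := by
      rw [Finsupp.mem_support_iff, map_sum, Finsupp.finset_sum_apply]
      rw [Finset.sum_eq_single b0]
      · simpa using hne
      · intro b _ hb
        rw [map_smul, Basis.repr_self, Finsupp.smul_apply, Finsupp.single_apply, if_neg]
        · simp
        · intro h; exact hb (hinj h)
      · simp
    exact h1 h2 (hq b0)
  have := hli.fintype_card_le_finrank
  rw [Fintype.card_pi] at this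
  simpa using this

lemma prod_kap {k : ℕ} (hdk : d ≤ k) : ((∏ v : Fin r × Fin d, (k - (v.2 : ℕ)) : ℕ) : ℤ) = Nks r d k 0 := by
  unfold Nks Gz ff
  rw [Fintype.prod_prod_type]
  simp only [Finset.prod_const, Finset.card_univ, Fintype.card_fin, zero_add, Finset.sum_range_one, pow_zero,
    Nat.choose_zero_right, Nat.cast_one, one_mul, Nat.cast_zero, sub_zero]
  push_cast
  congr 1
  rw [← Fin.prod_univ_eq_prod_range (fun j => (k : ℤ) - j)]
  apply Finset.prod_congr rfl
  intro j _
  have := j.2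
  rw [Nat.cast_sub (by omega)]

lemma Jk_zero (k : ℕ) : Jk r d k 0 = thI r d k := rfl

lemma Nks_zero_of_lt {k : ℕ} (hr : 0 < r) (h : k < d) : Nks r d k 0 = 0 := by
  unfold Nks Gz ff
  simp only [zero_add, Finset.sum_range_one, pow_zero, Nat.choose_zero_right, Nat.cast_one, one_mul,
    Nat.cast_zero, sub_zero]
  rw [Finset.prod_eq_zero (mem_range.mpr h) (by ring), zero_pow (by omega)]

theorem Jk_dim (hr : 0 < r) {k : ℕ} (s : ℕ) (hs : s ≤ k) (hsn : s ≤ r * d + 1) :
    (finrank ℚ (MvPolynomial (Fin r × Fin d) ℚ ⧸ Jk r d k s) : ℤ) = Nks r d k s := by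
  induction s with
  | zero =>
    obtain ⟨h1, h2⟩ := Jk_bound (r := r) (d := d) (Nat.zero_le k)
    apply le_antisymm h2
    by_cases h : d ≤ k
    · rw [← prod_kap h]
      have : Module.Finite ℚ (MvPolynomial (Fin r × Fin d) ℚ ⧸ thI r d k) := h1
      exact_mod_cast finrank_thI_ge h
    · rw [Nks_zero_of_lt hr (by omega)]
      positivity
  | succ s ih =>
    have ih' := ih (by omega) (by omega)
    obtain ⟨k, rfl⟩ : ∃ k', k = k' + 1 := ⟨k - 1, by omega⟩
    obtain ⟨h1, h2⟩ := Jk_bound (r := r) (d := d) (show s ≤ k + 1 by omega)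
    obtain ⟨h3, h4⟩ := Jk_bound (r := r) (d := d) hs
    obtain ⟨h5, h6⟩ := Jk_bound (r := r) (d := d) (show s ≤ k by omega)
    have h7 := finrank_colon (Jk r d (k + 1) s) (em univ (r * d - s))
    rw [← Jk_succ (by omega)] at h7
    have h8 := finrank_le_of_le (Jk_colon (r := r) (d := d) (k := k) (s := s) (by omega) (by omega))
    have h9 := Nks_rec (r := r) (d := d) k s
    omega

theorem colon_eq (hr : 0 < r) {k s : ℕ} (hs : s ≤ k) (hsn : s ≤ r * d) :
    colon (Jk r d (k + 1) s) (em univ (r * d - s)) = Jk r d k s := by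
  symm
  obtain ⟨h1, h2⟩ := Jk_bound (r := r) (d := d) (show s ≤ k + 1 by omega)
  obtain ⟨h5, h6⟩ := Jk_bound (r := r) (d := d) hs
  apply eq_of_le_of_finrank (Jk_colon hs hsn)
  have h3 := Jk_dim hr (r := r) (d := d) (k := k + 1) s (by omega) (by omega)
  have h4 := Jk_dim hr (r := r) (d := d) (k := k + 1) (s + 1) (by omega) (by omega)
  have h4' := Jk_dim hr (r := r) (d := d) (k := k) s (by omega) (by omega)
  have h7 := finrank_colon (Jk r d (k + 1) s) (em univ (r * d - s))
  rw [← Jk_succ hsn] at h7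
  have h9 := Nks_rec (r := r) (d := d) k s
  omega

end main

end Pool.Agent.H30.BQR
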