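import Pool.Agent.H30.BQR.Phi

set_option autoImplicit false
set_option linter.unusedSectionVars false

namespace Pool.Agent.H30.BQR

open Finset

variable {V : Type*} [Fintype V] [DecidableEq V]

/-- the cycle of `v` -/
def cl (π : Equiv.Perm V) (v : V) : Finset V := univ.filter (fun u => π.SameCycle v u)

/-- the set of cycles -/
def cyc (π : Equiv.Perm V) : Finset (Finset V) := univ.image (cl π)

lemma mem_cl {π : Equiv.Perm V} {u v : V} : u ∈ cl π v ↔ π.SameCycle v u := by simp [cl]

lemma self_mem_cl (π : Equiv.Perm V) (v : V) : v ∈ cl π v := mem_cl.mpr (Equiv.Perm.SameCycle.refl _ _)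

lemma cl_eq_of_mem {π : Equiv.Perm V} {u v : V} (h : u ∈ cl π v) : cl π u = cl π v := by
  rw [mem_cl] at h
  ext x
  rw [mem_cl, mem_cl]
  exact ⟨fun h' => h.trans h', fun h' => h.symm.trans h'⟩

lemma cl_apply (π : Equiv.Perm V) (v : V) : cl π (π v) = cl π v :=
  cl_eq_of_mem (mem_cl.mpr (Equiv.Perm.sameCycle_apply_right.mpr (Equiv.Perm.SameCycle.refl _ _)))

lemma cl_mem_cyc (π : Equiv.Perm V) (v : V) : cl π v ∈ cyc π := mem_image_of_mem _ (mem_univ _)

lemma mem_cyc {π : Equiv.Perm V} {O : Finset V} : O ∈ cyc π ↔ ∃ v, cl π v = O := by simp [cyc]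

lemma filter_cl {π : Equiv.Perm V} {O : Finset V} (hO : O ∈ cyc π) :
    univ.filter (fun v => cl π v = O) = O := by
  obtain ⟨v, rfl⟩ := mem_cyc.mp hO
  ext u
  simp only [mem_filter, mem_univ, true_and]
  constructor
  · intro h; rw [← h]; exact self_mem_cl π u
  · intro h; exact cl_eq_of_mem h

lemma sum_cyc {M : Type*} [AddCommMonoid M] (π : Equiv.Perm V) (f : V → M) :
    ∑ O ∈ cyc π, ∑ v ∈ O, f v = ∑ v, f v := by
  rw [← Finset.sum_fiberwise_of_maps_to (s := univ) (t := cyc π) (g := cl π) (fun v _ => cl_mem_cyc π v)]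
  apply Finset.sum_congr rfl
  intro O hO
  rw [filter_cl hO]

lemma const_of_inv {α : Type*} {π : Equiv.Perm V} {f : V → α} (h : ∀ v, f (π v) = f v) {u v : V}
    (hs : π.SameCycle v u) : f u = f v := by
  obtain ⟨i, rfl⟩ := hs
  induction i using Int.induction_on generalizing v with
  | zero => simp
  | succ n ih =>
    rw [zpow_add, zpow_one, Equiv.Perm.mul_apply]
    rw [ih, h]
  | pred n ih =>
    rw [zpow_sub, zpow_one, Equiv.Perm.mul_apply]
    rw [ih]
    conv_rhs => rw [← Equiv.apply_symm_apply π v, h]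
    rfl

section geo
/-- series with support the multiples of `ω` -/
noncomputable def mult (ω : ℕ) : PowerSeries ℚ := PowerSeries.mk fun n => if ω ∣ n then 1 else 0

lemma mult_mul {ω : ℕ} (hω : 0 < ω) : mult ω * (1 - PowerSeries.X ^ ω) = 1 := by
  ext n
  rw [mul_sub, mul_one, map_sub, PowerSeries.coeff_mul_X_pow', mult, PowerSeries.coeff_mk, PowerSeries.coeff_one]
  by_cases h : ω ≤ n
  · rw [if_pos h, PowerSeries.coeff_mk, if_neg (by omega : ¬ n = 0)]
    have : ω ∣ n - ω ↔ ω ∣ n := by
      rw [Nat.dvd_sub_iff_left h (dvd_refl ω)]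
    simp [this]
  · rw [if_neg h, sub_zero]
    by_cases h0 : n = 0
    · simp [h0]
    · rw [if_neg h0, if_neg]
      intro hd
      exact h (Nat.le_of_dvd (by omega) hd)
end geo

variable (π : Equiv.Perm V) (κ : V → ℕ)

/-- invariant exponents, divisible by `κ`, of degree `m` -/
noncomputable def Ei (m : ℕ) : Finset (V →₀ ℕ) :=
  (Dm V m).filter (fun e => (∀ v, κ v ∣ e v) ∧ e.mapDomain π = e)

lemma mapDomain_eq_iff {π : Equiv.Perm V} {e : V →₀ ℕ} : e.mapDomain π = e ↔ ∀ v, e (π v) = e v := by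
  constructor
  · intro h v
    conv_lhs => rw [← h]
    rw [Finsupp.mapDomain_apply π.injective]
  · intro h
    ext v
    obtain ⟨u, rfl⟩ := π.surjective v
    rw [Finsupp.mapDomain_apply π.injective, h]

theorem cnt (hκ : ∀ v, 0 < κ v) (hκπ : ∀ v, κ (π v) = κ v) :
    (PowerSeries.mk fun m => ((Ei π κ m).card : ℚ)) *
      ∏ O ∈ cyc π, (1 - (PowerSeries.X : PowerSeries ℚ) ^ (∑ v ∈ O, κ v)) = 1 := by
  have hω : ∀ O ∈ cyc π, 0 < ∑ v ∈ O, κ v := by
    intro O hO
    obtain ⟨v, rfl⟩ := mem_cyc.mp hO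
    exact Finset.sum_pos (fun v _ => hκ v) ⟨v, self_mem_cl π v⟩
  have hmain : (PowerSeries.mk fun m => ((Ei π κ m).card : ℚ)) = ∏ O ∈ cyc π, mult (∑ v ∈ O, κ v) := by
    ext m
    rw [PowerSeries.coeff_mk, PowerSeries.coeff_prod]
    have h1 : ∀ l ∈ finsuppAntidiag (cyc π) m, ∏ O ∈ cyc π, PowerSeries.coeff (l O) (mult (∑ v ∈ O, κ v)) =
        if ∀ O ∈ cyc π, (∑ v ∈ O, κ v) ∣ l O then 1 else 0 := by
      intro l _
      simp only [mult, PowerSeries.coeff_mk]
      rw [Finset.prod_ite_zero]; simp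
    rw [Finset.sum_congr rfl h1, Finset.sum_boole]
    congr 1
    refine Finset.card_nbij'
      (fun e => Finsupp.onFinset (cyc π) (fun O => if O ∈ cyc π then ∑ v ∈ O, e v else 0)
        (fun O h => by by_contra h'; exact h (if_neg h')))
      (fun l => Finsupp.equivFunOnFinite.symm (fun v => κ v * (l (cl π v) / (∑ u ∈ cl π v, κ u))))
      ?_ ?_ ?_ ?_
    · intro e he
      simp only [Ei, coe_filter, Set.mem_ofPred_eq, mem_Dm] at he
      obtain ⟨he1, he2, he3⟩ := he
      rw [mapDomain_eq_iff] at he3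
      simp only [coe_filter, Set.mem_ofPred_eq]
      refine ⟨?_, ?_⟩
      · rw [mem_finsuppAntidiag]
        constructor
        · rw [← he1, Finsupp.degree_eq_sum, ← sum_cyc π]
          apply Finset.sum_congr rfl
          intro O hO
          rw [Finsupp.onFinset_apply, if_pos hO]
        · exact Finsupp.support_onFinset_subset
      · intro O hO
        rw [Finsupp.onFinset_apply, if_pos hO]
        obtain ⟨v, rfl⟩ := mem_cyc.mp hO
        obtain ⟨t, ht⟩ := he2 v
        refine ⟨t, ?_⟩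
        rw [Finset.sum_mul]
        apply Finset.sum_congr rfl
        intro u hu
        rw [const_of_inv he3 (mem_cl.mp hu), const_of_inv hκπ (mem_cl.mp hu), ht]
    · intro l hl
      simp only [coe_filter, Set.mem_ofPred_eq, mem_finsuppAntidiag] at hl
      simp only [Ei, coe_filter, Set.mem_ofPred_eq, mem_Dm]
      refine ⟨?_, ?_, ?_⟩
      · rw [Finsupp.degree_eq_sum, ← sum_cyc π, ← hl.1.1]
        apply Finset.sum_congr rfl
        intro O hO
        obtain ⟨t, ht⟩ := hl.2 O hO
        obtain ⟨v, rfl⟩ := mem_cyc.mp hO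
        have h2 : ∀ u ∈ cl π v, (Finsupp.equivFunOnFinite.symm
            (fun v => κ v * (l (cl π v) / (∑ u ∈ cl π v, κ u)))) u = κ u * t := by
          intro u hu
          rw [Finsupp.equivFunOnFinite_symm_apply_apply, cl_eq_of_mem hu, ht, Nat.mul_div_cancel_left _ (hω _ hO)]
        rw [Finset.sum_congr rfl h2, ← Finset.sum_mul, ht]
      · intro v
        exact ⟨_, rfl⟩
      · rw [mapDomain_eq_iff]
        intro v
        simp only [Finsupp.equivFunOnFinite_symm_apply_apply]
        rw [cl_apply, hκπ]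
    · intro e he
      simp only [Ei, coe_filter, Set.mem_ofPred_eq, mem_Dm] at he
      obtain ⟨he1, he2, he3⟩ := he
      rw [mapDomain_eq_iff] at he3
      ext v
      simp only [Finsupp.equivFunOnFinite_symm_apply_apply, Finsupp.onFinset_apply]
      rw [if_pos (cl_mem_cyc π v)]
      obtain ⟨t, ht⟩ := he2 v
      have h2 : ∑ u ∈ cl π v, e u = (∑ u ∈ cl π v, κ u) * t := by
        rw [Finset.sum_mul]
        apply Finset.sum_congr rfl
        intro u hu
        rw [const_of_inv he3 (mem_cl.mp hu), const_of_inv hκπ (mem_cl.mp hu), ht]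
      rw [h2, Nat.mul_div_cancel_left _ (hω _ (cl_mem_cyc π v)), ht]
    · intro l hl
      simp only [coe_filter, Set.mem_ofPred_eq, mem_finsuppAntidiag] at hl
      ext O
      simp only [Finsupp.onFinset_apply]
      split_ifs with hO
      · obtain ⟨t, ht⟩ := hl.2 O hO
        obtain ⟨v, rfl⟩ := mem_cyc.mp hO
        have h2 : ∀ u ∈ cl π v, (Finsupp.equivFunOnFinite.symm
            (fun v => κ v * (l (cl π v) / (∑ u ∈ cl π v, κ u)))) u = κ u * t := by
          intro u hu
          rw [Finsupp.equivFunOnFinite_symm_apply_apply, cl_eq_of_mem hu, ht, Nat.mul_div_cancel_left _ (hω _ hO)]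
        rw [Finset.sum_congr rfl h2, ← Finset.sum_mul, ht]
      · have := hl.1.2
        by_contra h
        exact hO (this (Finsupp.mem_support_iff.mpr (Ne.symm h)))
  rw [hmain, ← Finset.prod_mul_distrib]
  exact Finset.prod_eq_one fun O hO => mult_mul (hω O hO)

end Pool.Agent.H30.BQR
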