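import Pool.Agent.H30.BQR.Rec

set_option autoImplicit false
set_option linter.unusedSectionVars false

namespace Pool.Agent.H30.BQR

open MvPolynomial Finset Module

section qb

/-- `q`-binomial coefficients with parameter `Q` -/
noncomputable def qBin (Q : PowerSeries ℚ) : ℕ → ℕ → PowerSeries ℚ
  | _, 0 => 1
  | 0, _ + 1 => 0
  | n + 1, k + 1 => qBin Q n k + Q ^ (k + 1) * qBin Q n (k + 1)

lemma qBin_zero (Q : PowerSeries ℚ) (n : ℕ) : qBin Q n 0 = 1 := by cases n <;> rfl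

lemma qBin_succ (Q : PowerSeries ℚ) (n k : ℕ) :
    qBin Q (n + 1) (k + 1) = qBin Q n k + Q ^ (k + 1) * qBin Q n (k + 1) := rfl

lemma qBin_X (n : ℕ) : ∀ k, qBin PowerSeries.X n k = qB n k := by
  induction n with
  | zero => intro k; cases k <;> rfl
  | succ n ih =>
    intro k
    cases k with
    | zero => rfl
    | succ k => rw [qBin_succ, qB_succ, ih, ih]

noncomputable def Fq (Q : PowerSeries ℚ) (n k : ℕ) : PowerSeries ℚ := ∏ i ∈ range k, (1 - Q ^ (n - i))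

lemma Fq_succ_succ (Q : PowerSeries ℚ) (n k : ℕ) : Fq Q (n + 1) (k + 1) = (1 - Q ^ (n + 1)) * Fq Q n k := by
  unfold Fq
  rw [Finset.prod_range_succ', mul_comm]
  simp

lemma Fq_of_lt (Q : PowerSeries ℚ) {n k : ℕ} (h : n < k) : Fq Q n k = 0 := by
  unfold Fq
  exact Finset.prod_eq_zero (mem_range.mpr h) (by simp)

lemma Fq_succ (Q : PowerSeries ℚ) (n k : ℕ) : Fq Q n (k + 1) = Fq Q n k * (1 - Q ^ (n - k)) := by
  unfold Fq
  rw [Finset.prod_range_succ]

lemma qBin_mul (Q : PowerSeries ℚ) (n : ℕ) : ∀ k, qBin Q n k * Fq Q k k = Fq Q n k := by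
  induction n with
  | zero =>
    intro k
    cases k with
    | zero => simp [qBin_zero]
    | succ k =>
      rw [Fq_of_lt Q (by omega : 0 < k + 1)]
      simp [qBin]
  | succ n ih =>
    intro k
    cases k with
    | zero => simp [qBin_zero, Fq]
    | succ k =>
      rw [qBin_succ, Fq_succ_succ, Fq_succ_succ]
      have h1 := ih k
      have h2 := ih (k + 1)
      rw [Fq_succ_succ] at h2
      have h3 : (qBin Q n k + Q ^ (k + 1) * qBin Q n (k + 1)) * ((1 - Q ^ (k + 1)) * Fq Q k k) =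
          (1 - Q ^ (k + 1)) * Fq Q n k + Q ^ (k + 1) * Fq Q n (k + 1) := by
        rw [← h1, ← h2]; ring
      rw [h3, Fq_succ]
      by_cases h : k ≤ n
      · have : Q ^ (n + 1) = Q ^ (k + 1) * Q ^ (n - k) := by
          rw [← pow_add]; congr 1; omega
        rw [this]; ring
      · rw [Fq_of_lt Q (by omega : n < k)]; ring

end qb

section ppi
variable {r d : ℕ}

lemma ppi_zpow (σ : Equiv.Perm (Fin r)) (n : ℤ) (v : Fin r × Fin d) :
    ((ppi d σ) ^ n) v = ((σ ^ n) v.1, v.2) := by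
  have h : ∀ τ τ' : Equiv.Perm (Fin r), ppi d (τ * τ') = ppi d τ * ppi d τ' := fun τ τ' => rfl
  let φ : Equiv.Perm (Fin r) →* Equiv.Perm (Fin r × Fin d) :=
    { toFun := ppi d, map_one' := rfl, map_mul' := h }
  have h2 : ppi d (σ ^ n) = (ppi d σ) ^ n := map_zpow φ σ n
  rw [← h2]; rfl

lemma sameCycle_ppi (σ : Equiv.Perm (Fin r)) (u v : Fin r × Fin d) :
    (ppi d σ).SameCycle u v ↔ σ.SameCycle u.1 v.1 ∧ u.2 = v.2 := by
  constructor
  · rintro ⟨n, hn⟩
    rw [ppi_zpow] at hn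
    rw [← hn]
    exact ⟨⟨n, rfl⟩, rfl⟩
  · rintro ⟨⟨n, hn⟩, h2⟩
    refine ⟨n, ?_⟩
    rw [ppi_zpow]
    exact Prod.ext hn h2

lemma cl_ppi (σ : Equiv.Perm (Fin r)) (v : Fin r × Fin d) : cl (ppi d σ) v = cl σ v.1 ×ˢ {v.2} := by
  ext u
  rw [mem_cl, sameCycle_ppi, mem_product, mem_cl, mem_singleton, eq_comm (a := v.2)]

lemma cyc_ppi (σ : Equiv.Perm (Fin r)) :
    cyc (ppi d σ) = (cyc σ ×ˢ (univ : Finset (Fin d))).image (fun p => p.1 ×ˢ ({p.2} : Finset (Fin d))) := by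
  ext O
  rw [mem_cyc, mem_image]
  constructor
  · rintro ⟨v, rfl⟩
    exact ⟨(cl σ v.1, v.2), by simp [cl_mem_cyc], (cl_ppi σ v).symm⟩
  · rintro ⟨⟨c, j⟩, h, rfl⟩
    rw [mem_product] at h
    obtain ⟨i, hi⟩ := mem_cyc.mp h.1
    refine ⟨(i, j), ?_⟩
    rw [cl_ppi]
    simp only at hi ⊢
    rw [hi]

/-- product over the batch cycles -/
noncomputable def Pj (d : ℕ) (σ : Equiv.Perm (Fin r)) (j : ℕ) : PowerSeries ℚ :=
  ∏ c ∈ cyc σ, ∏ i ∈ range d, (1 - (PowerSeries.X : PowerSeries ℚ) ^ (c.card * (j - i)))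

lemma prod_cyc_ppi (σ : Equiv.Perm (Fin r)) (k : ℕ) :
    ∏ O ∈ cyc (ppi d σ), (1 - (PowerSeries.X : PowerSeries ℚ) ^ (∑ v ∈ O, (k - (v.2 : ℕ)))) = Pj d σ k := by
  rw [cyc_ppi, Finset.prod_image, Finset.prod_product]
  · unfold Pj
    apply Finset.prod_congr rfl
    intro c _
    rw [← Fin.prod_univ_eq_prod_range (fun i => 1 - (PowerSeries.X : PowerSeries ℚ) ^ (c.card * (k - i)))]
    apply Finset.prod_congr rfl
    intro j _
    rw [Finset.sum_product]
    simp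
  · rintro ⟨c, j⟩ h ⟨c', j'⟩ h' heq
    simp only at heq
    rw [coe_product, Set.mem_prod] at h h'
    obtain ⟨i, hi⟩ := mem_cyc.mp h.1
    simp only at hi
    have h1 : (i, j) ∈ c' ×ˢ ({j'} : Finset (Fin d)) := by
      rw [← heq, mem_product]
      exact ⟨by rw [← hi]; exact self_mem_cl σ i, by simp⟩
    rw [mem_product, mem_singleton] at h1
    obtain ⟨h2, h3⟩ := h1
    simp only at h2 h3
    subst h3
    obtain ⟨i', hi'⟩ := mem_cyc.mp h'.1
    simp only at hi'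
    rw [← hi'] at h2
    have h4 := cl_eq_of_mem h2
    rw [Prod.mk.injEq]
    exact ⟨by rw [← hi, h4, hi'], rfl⟩

lemma Pj_eq (σ : Equiv.Perm (Fin r)) (j : ℕ) :
    Pj d σ j = (∏ c ∈ cyc σ, qBin (PowerSeries.X ^ c.card) j d) * Pj d σ d := by
  unfold Pj
  rw [← Finset.prod_mul_distrib]
  apply Finset.prod_congr rfl
  intro c _
  have := qBin_mul ((PowerSeries.X : PowerSeries ℚ) ^ c.card) j d
  unfold Fq at this
  simp only [← pow_mul] at this
  exact this.symm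

/-- graded character of `B_j`, all `j` -/
theorem Chi_B {w : Equiv.Perm (Fin r × Fin d)} {σ : Equiv.Perm (Fin r)} (hr : 0 < r) (h : Over w σ) (j : ℕ) :
    Chi w (Jk r d j 0) (Stab_Jk h _ _) * ∏ O ∈ cyc w, (1 - (PowerSeries.X : PowerSeries ℚ) ^ O.card) =
      Pj d σ j := by
  by_cases hdj : d ≤ j
  · rw [← prod_cyc_ppi, ← Chi_th h hdj]
    rfl
  · have h1 : Jk r d j 0 = ⊤ := by
      rw [Ideal.eq_top_iff_one, ← hh_zero (bat r d ⟨0, hr⟩)]
      exact Jk_hh (by omega)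
    have h2 : ∀ m, chi w (Jk r d j 0) (Stab_Jk h _ _) m = 0 := by
      intro m
      unfold chi qtr
      have : Subsingleton (homogeneousSubmodule (Fin r × Fin d) ℚ m ⧸ gp (Jk r d j 0) m) := by
        rw [Submodule.Quotient.subsingleton_iff, eq_top_iff]
        intro x _
        rw [mem_gp, h1]; trivial
      rw [show Submodule.mapQ (gp (Jk r d j 0) m) (gp (Jk r d j 0) m) (fH w m) (gp_le (Stab_Jk h _ _) m) = 0 from
        LinearMap.ext fun x => Subsingleton.elim _ _, map_zero]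
    have h3 : Chi w (Jk r d j 0) (Stab_Jk h _ _) = 0 := by
      ext m
      rw [Chi, PowerSeries.coeff_mk, h2, map_zero]
    rw [h3, zero_mul]
    symm
    obtain ⟨c, hc⟩ : ∃ c, c ∈ cyc σ := ⟨cl σ ⟨0, hr⟩, cl_mem_cyc σ _⟩
    unfold Pj
    refine Finset.prod_eq_zero hc (Finset.prod_eq_zero (mem_range.mpr (by omega : j < d)) ?_)
    simp

/-- Q2, internal form -/
theorem Q2_internal {w : Equiv.Perm (Fin r × Fin d)} {σ : Equiv.Perm (Fin r)} (hr : 0 < r) (h : Over w σ)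
    (k : ℕ) (hk : k ≤ r * d) :
    Chi w (Jk r d k k) (Stab_Jk h _ _) * ∏ O ∈ cyc w, (1 - (PowerSeries.X : PowerSeries ℚ) ^ O.card) =
      ∑ t ∈ range (k + 1), (-1) ^ t * PowerSeries.X ^ (t * (r * d - k) + t * (t + 1) / 2) *
        qBin PowerSeries.X k t * Pj d σ (k - t) := by
  rw [Chi_solve hr h k hk k le_rfl, Finset.sum_mul]
  apply Finset.sum_congr rfl
  intro t _
  rw [mul_assoc, Chi_B hr h, qBin_X]

end ppi

end Pool.Agent.H30.BQR
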