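import Pool.Agent.H30.BQR.Cnt

set_option autoImplicit false
set_option linter.unusedSectionVars false

namespace Pool.Agent.H30.BQR

open MvPolynomial Finset Module

section gen
variable {V : Type*} [Fintype V] [DecidableEq V]

/-- degree `m` part of an ideal -/
noncomputable def gp (I : Ideal (MvPolynomial V ℚ)) (m : ℕ) : Submodule ℚ (homogeneousSubmodule V ℚ m) :=
  (I.restrictScalars ℚ).comap (homogeneousSubmodule V ℚ m).subtype

lemma mem_gp {I : Ideal (MvPolynomial V ℚ)} {m : ℕ} {x : homogeneousSubmodule V ℚ m} :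
    x ∈ gp I m ↔ (x : MvPolynomial V ℚ) ∈ I := Iff.rfl

def Stab (w : Equiv.Perm V) (I : Ideal (MvPolynomial V ℚ)) : Prop := ∀ f ∈ I, rename w f ∈ I

lemma fH_coe (w : Equiv.Perm V) (m : ℕ) (x : homogeneousSubmodule V ℚ m) :
    (fH w m x : MvPolynomial V ℚ) = rename w (x : MvPolynomial V ℚ) := rfl

lemma gp_le {w : Equiv.Perm V} {I : Ideal (MvPolynomial V ℚ)} (h : Stab w I) (m : ℕ) :
    gp I m ≤ (gp I m).comap (fH w m) := fun x hx => h _ hx

noncomputable def chi (w : Equiv.Perm V) (I : Ideal (MvPolynomial V ℚ)) (h : Stab w I) (m : ℕ) : ℚ :=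
  qtr (gp I m) (fH w m) (gp_le h m)

noncomputable def Chi (w : Equiv.Perm V) (I : Ideal (MvPolynomial V ℚ)) (h : Stab w I) : PowerSeries ℚ :=
  PowerSeries.mk (chi w I h)

/-- traces of the quotient by an ideal from a basis adapted to it -/
lemma chi_of_basis {w : Equiv.Perm V} {I : Ideal (MvPolynomial V ℚ)} (h : Stab w I) (m : ℕ)
    (Φ : Basis (V →₀ ℕ) ℚ (MvPolynomial V ℚ)) (P : (V →₀ ℕ) → Prop) [DecidablePred P]
    (h1 : homogeneousSubmodule V ℚ m = Submodule.span ℚ (Φ '' (Dm V m : Set (V →₀ ℕ))))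
    (h2 : I.restrictScalars ℚ = Submodule.span ℚ (Φ '' {c | P c})) :
    chi w I h m = ∑ c ∈ (Dm V m).filter (fun c => ¬ P c), Φ.repr (rename w (Φ c)) c := by
  set U : Submodule ℚ (MvPolynomial V ℚ) := I.restrictScalars ℚ ⊓ homogeneousSubmodule V ℚ m with hU
  have hU2 : U = Submodule.span ℚ (Φ '' ((Dm V m).filter P : Set (V →₀ ℕ))) := by
    rw [hU, h1, h2]
    ext f
    rw [Submodule.mem_inf, Basis.mem_span_image, Basis.mem_span_image, Basis.mem_span_image]
    rw [← Set.subset_inter_iff]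
    have : {c | P c} ∩ (Dm V m : Set (V →₀ ℕ)) = ((Dm V m).filter P : Set (V →₀ ℕ)) := by
      ext c
      simp [and_comm]
    rw [this]
  have hfU : ∀ u ∈ U, (rename w : MvPolynomial V ℚ →ₐ[ℚ] MvPolynomial V ℚ).toLinearMap u ∈ U := by
    intro u hu
    exact ⟨h _ hu.1, IsHomogeneous.rename_isHomogeneous hu.2⟩
  have t1 := trace_span_basis Φ ((Dm V m).filter P) U hU2
    (rename w : MvPolynomial V ℚ →ₐ[ℚ] MvPolynomial V ℚ).toLinearMap hfU
  have t2 := trace_span_basis Φ (Dm V m) (homogeneousSubmodule V ℚ m) h1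
    (rename w : MvPolynomial V ℚ →ₐ[ℚ] MvPolynomial V ℚ).toLinearMap
    (fun _ hf => IsHomogeneous.rename_isHomogeneous hf)
  have := t1.1
  have t3 : LinearMap.trace ℚ _ (fH w m) = LinearMap.trace ℚ U
      ((rename w : MvPolynomial V ℚ →ₐ[ℚ] MvPolynomial V ℚ).toLinearMap.restrict hfU) + chi w I h m := by
    refine trace_exact (Submodule.inclusion (inf_le_right : U ≤ homogeneousSubmodule V ℚ m)) (gp I m).mkQ
      (Submodule.inclusion_injective _) (Submodule.mkQ_surjective _) ?_ _ _ _ (fun a => rfl) (fun b => ?_)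
    · rw [Submodule.ker_mkQ]
      ext x
      rw [mem_gp]
      constructor
      · intro hx
        exact ⟨⟨x, hx, x.2⟩, rfl⟩
      · rintro ⟨y, rfl⟩
        exact y.2.1
    · simp
  have t4 := t2.2.2
  have t5 := t1.2.2
  rw [t5] at t3
  unfold fH at t3
  rw [t4] at t3
  rw [← Finset.sum_filter_add_sum_filter_not (Dm V m) P] at t3
  simp only [AlgHom.toLinearMap_apply] at t3
  linarith

end gen

section th
variable {r d : ℕ}

lemma card_bat (i : Fin r) : (bat r d i).card = d := by
  have h : bat r d i = (univ : Finset (Fin d)).map ⟨fun j => (i, j), fun a b h => by simpa using h⟩ := by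
    ext v
    simp only [bat, bt, mem_filter, mem_univ, true_and, mem_map, Function.Embedding.coeFn_mk]
    constructor
    · intro h; exact ⟨v.2, by rw [← h]⟩
    · rintro ⟨j, rfl⟩; rfl
  rw [h, Finset.card_map]; simp

/-- the ideal of `h_{k-d+1}, …, h_k` of all batches -/
noncomputable def thI (r d k : ℕ) : Ideal (MvPolynomial (Fin r × Fin d) ℚ) :=
  Idl Prod.fst univ (fun _ => k) 0

lemma th_mem_thI {k : ℕ} (hdk : d ≤ k) (v : Fin r × Fin d) : th k v ∈ thI r d k := by
  unfold th thI bat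
  apply Idl_hh
  have := card_bat (d := d) v.1
  unfold bat at this
  rw [this]
  have := v.2.2
  omega

lemma hh_mem_span {k : ℕ} (i : Fin r) (m : ℕ) (hm : k < m + d) :
    hh (bat r d i) m ∈ Ideal.span (Set.range (th (r := r) (d := d) k)) := by
  induction m using Nat.strong_induction_on with
  | _ m ih =>
  by_cases h : m ≤ k
  · refine Ideal.subset_span ⟨(i, ⟨k - m, by omega⟩), ?_⟩
    unfold th
    congr 1
    simp; omega
  · rw [hh_rec _ _ (by omega), card_bat]
    refine Ideal.neg_mem_iff _ |>.mpr (Ideal.sum_mem _ fun j hj => ?_)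
    rw [mem_range] at hj
    split_ifs
    · exact Ideal.mul_mem_left _ _ (ih _ (by omega) (by omega))
    · exact Ideal.zero_mem _

lemma thI_eq {k : ℕ} (hdk : d ≤ k) : thI r d k = Ideal.span (Set.range (th k)) := by
  apply le_antisymm
  · unfold thI Idl
    rw [Ideal.span_le]
    rintro f (⟨v, hv, rfl⟩ | ⟨i, m, hm, rfl⟩ | ⟨m, hm, rfl⟩)
    · simp at hv
    · have h1 := card_bat (d := d) i
      unfold bat at h1
      rw [h1] at hm
      exact hh_mem_span i m hm
    · rw [em_eq_zero (by simpa using hm)]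
      exact Ideal.zero_mem _
  · rw [Ideal.span_le]
    rintro _ ⟨v, rfl⟩
    exact th_mem_thI hdk v

lemma qt_add_single {k : ℕ} (hdk : d ≤ k) (c : Fin r × Fin d →₀ ℕ) (v : Fin r × Fin d) :
    qt k (c + Finsupp.single v (k - (v.2 : ℕ))) ≠ 0 := by
  intro h
  have h1 := DFunLike.congr_fun h v
  rw [qt_apply, Finsupp.add_apply, Finsupp.single_eq_same, Nat.add_div_right _ (kap_pos hdk v)] at h1
  have := kap_pos hdk v
  simp at h1
  omega

lemma thI_span {k : ℕ} (hdk : d ≤ k) : (thI r d k).restrictScalars ℚ =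
    Submodule.span ℚ (PhiB hdk '' {c | qt k c ≠ 0}) := by
  apply le_antisymm
  · intro f hf
    rw [Submodule.restrictScalars_mem, thI_eq hdk] at hf
    unfold Ideal.span at hf
    induction hf using Submodule.span_induction with
    | zero => exact Submodule.zero_mem _
    | add a b _ _ ha hb => exact Submodule.add_mem _ ha hb
    | mem f hf =>
      obtain ⟨v, rfl⟩ := hf
      have h1 := th_mul_phi hdk v 0
      have h2 : phi k (0 : Fin r × Fin d →₀ ℕ) = 1 := by
        rw [phi_of_lt (fun v => by simpa using kap_pos hdk v)]; rfl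
      rw [h2, mul_one] at h1
      rw [h1]
      exact Submodule.subset_span ⟨_, qt_add_single hdk 0 v, PhiB_apply hdk _⟩
    | smul a b hb' hb =>
      clear hb'
      -- a * b with b in the span
      have key : ∀ c, qt k c ≠ 0 → ∀ a : MvPolynomial (Fin r × Fin d) ℚ,
          a * phi k c ∈ Submodule.span ℚ (PhiB hdk '' {c | qt k c ≠ 0}) := by
        intro c hc a
        obtain ⟨v, hv⟩ : ∃ v, qt k c v ≠ 0 := by
          by_contra h
          push Not at h
          exact hc (Finsupp.ext h)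
        have hle : k - (v.2 : ℕ) ≤ c v := by
          rw [qt_apply] at hv
          by_contra h
          exact hv (by rw [Nat.div_eq_of_lt (by omega), mul_zero])
        have hc1 : c = (c - Finsupp.single v (k - (v.2 : ℕ))) + Finsupp.single v (k - (v.2 : ℕ)) := by
          ext u
          rw [Finsupp.add_apply, Finsupp.tsub_apply, Finsupp.single_apply]
          split_ifs with h
          · rw [← h]; omega
          · omega
        rw [hc1, ← th_mul_phi hdk, mul_left_comm]
        have h3 : ∀ g : MvPolynomial (Fin r × Fin d) ℚ, th k v * g ∈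
            Submodule.span ℚ (PhiB hdk '' {c | qt k c ≠ 0}) := by
          intro g
          have h4 : g ∈ Submodule.span ℚ (Set.range (PhiB hdk)) := by
            rw [(PhiB hdk).span_eq]; trivial
          induction h4 using Submodule.span_induction with
          | zero => rw [mul_zero]; exact Submodule.zero_mem _
          | add a b _ _ ha hb => rw [mul_add]; exact Submodule.add_mem _ ha hb
          | smul a b _ hb => rw [mul_smul_comm]; exact Submodule.smul_mem _ _ hb
          | mem g hg =>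
            obtain ⟨c', rfl⟩ := hg
            rw [PhiB_apply, th_mul_phi hdk]
            exact Submodule.subset_span ⟨_, qt_add_single hdk c' v, PhiB_apply hdk _⟩
        exact h3 _
      rw [smul_eq_mul]
      induction hb using Submodule.span_induction with
      | zero => rw [mul_zero]; exact Submodule.zero_mem _
      | add a b _ _ ha hb => rw [mul_add]; exact Submodule.add_mem _ ha hb
      | smul t b _ hb => rw [mul_smul_comm]; exact Submodule.smul_mem _ _ hb
      | mem g hg =>
        obtain ⟨c', hc', rfl⟩ := hg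
        rw [PhiB_apply]
        exact key c' hc' a
  · rw [Submodule.span_le]
    rintro _ ⟨c, hc, rfl⟩
    rw [PhiB_apply]
    obtain ⟨v, hv⟩ : ∃ v, qt k c v ≠ 0 := by
      by_contra h
      push Not at h
      exact hc (Finsupp.ext h)
    have hle : k - (v.2 : ℕ) ≤ c v := by
      rw [qt_apply] at hv
      by_contra h
      exact hv (by rw [Nat.div_eq_of_lt (by omega), mul_zero])
    have hc1 : c = (c - Finsupp.single v (k - (v.2 : ℕ))) + Finsupp.single v (k - (v.2 : ℕ)) := by
      ext u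
      rw [Finsupp.add_apply, Finsupp.tsub_apply, Finsupp.single_apply]
      split_ifs with h
      · rw [← h]; omega
      · omega
    rw [hc1, ← th_mul_phi hdk]
    exact Ideal.mul_mem_right _ _ (th_mem_thI hdk v)

lemma hom_eq_span_phi {k : ℕ} (hdk : d ≤ k) (m : ℕ) :
    homogeneousSubmodule (Fin r × Fin d) ℚ m =
      Submodule.span ℚ (PhiB hdk '' (Dm (Fin r × Fin d) m : Set (Fin r × Fin d →₀ ℕ))) := by
  rw [← Sp_eq hdk]
  unfold Sp
  congr 1
  ext f
  constructor
  · rintro ⟨c, hc, rfl⟩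
    exact ⟨c, by simpa [mem_Dm] using hc, PhiB_apply hdk c⟩
  · rintro ⟨c, hc, rfl⟩
    exact ⟨c, by simpa [mem_Dm] using hc, PhiB_apply hdk c⟩

lemma qt_eq_zero_iff {k : ℕ} (hdk : d ≤ k) {c : Fin r × Fin d →₀ ℕ} :
    qt k c = 0 ↔ ∀ v, c v < k - (v.2 : ℕ) := by
  constructor
  · intro h v
    have h1 := DFunLike.congr_fun h v
    rw [qt_apply] at h1
    have := kap_pos hdk v
    simp only [Finsupp.coe_zero, Pi.zero_apply, mul_eq_zero, Nat.div_eq_zero_iff] at h1
    omega
  · intro h
    ext v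
    rw [qt_apply, Nat.div_eq_of_lt (h v)]; simp

lemma qt_add {k : ℕ} (hdk : d ≤ k) {e b : Fin r × Fin d →₀ ℕ} (he : Dv k e) (hb : qt k b = 0) :
    qt k (e + b) = e ∧ rm k (e + b) = b := by
  rw [qt_eq_zero_iff hdk] at hb
  constructor
  · ext v
    obtain ⟨t, ht⟩ := he v
    rw [qt_apply, Finsupp.add_apply, ht, Nat.mul_add_div (kap_pos hdk v), Nat.div_eq_of_lt (hb v), add_zero]
  · ext v
    obtain ⟨t, ht⟩ := he v
    rw [rm_apply, Finsupp.add_apply, ht, Nat.mul_add_mod, Nat.mod_eq_of_lt (hb v)]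

lemma rm_of_qt {k : ℕ} {b : Fin r × Fin d →₀ ℕ} (hb : qt k b = 0) : rm k b = b := by
  have := qt_add_rm k b
  rwa [hb, zero_add] at this

open Classical in
/-- factorisation of the trace series of the polynomial ring -/
lemma series_factor {w : Equiv.Perm (Fin r × Fin d)} {σ : Equiv.Perm (Fin r)} (h : Over w σ) {k : ℕ}
    (hdk : d ≤ k) (hs : Stab w (thI r d k)) :
    (PowerSeries.mk fun m => ((Ei w (fun _ => 1) m).card : ℚ)) =
      (PowerSeries.mk fun m => ((Ei (ppi d σ) (fun v => k - (v.2 : ℕ)) m).card : ℚ)) * Chi w (thI r d k) hs := by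
  ext m
  rw [PowerSeries.coeff_mk, PowerSeries.coeff_mul]
  set g : (Fin r × Fin d →₀ ℕ) → ℚ := fun b => (PhiB hdk).repr (rename w (monomial b 1)) b with hg
  have h1 : ((Ei w (fun _ => 1) m).card : ℚ) = ∑ c ∈ (Dm (Fin r × Fin d) m).filter
      (fun c => (qt k c).mapDomain (ppi d σ) = qt k c), g (rm k c) := by
    have h2 := trace_fH w m
    have h3 := (trace_span_basis (PhiB hdk) (Dm (Fin r × Fin d) m) _ (hom_eq_span_phi hdk m)
      (rename w : MvPolynomial (Fin r × Fin d) ℚ →ₐ[ℚ] MvPolynomial (Fin r × Fin d) ℚ).toLinearMap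
      (fun _ hf => IsHomogeneous.rename_isHomogeneous hf)).2.2
    unfold fH at h2
    rw [h3] at h2
    have h4 : Ei w (fun _ => 1) m = (Dm (Fin r × Fin d) m).filter (fun c => c.mapDomain w = c) := by
      unfold Ei
      apply Finset.filter_congr
      intro c _
      simp
    rw [h4, ← h2, Finset.sum_filter]
    apply Finset.sum_congr rfl
    intro c _
    exact coeff_diag h hdk c
  have h2 : ∀ l, chi w (thI r d k) hs l = ∑ b ∈ (Dm (Fin r × Fin d) l).filter (fun b => qt k b = 0), g b := by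
    intro l
    rw [chi_of_basis hs l (PhiB hdk) (fun c => qt k c ≠ 0) (hom_eq_span_phi hdk l) (thI_span hdk)]
    simp only [not_not]
    apply Finset.sum_congr rfl
    intro c hc
    rw [mem_filter] at hc
    rw [coeff_diag h hdk c, hc.2, Finsupp.mapDomain_zero, if_pos rfl, rm_of_qt hc.2]
  rw [h1]
  have h3 : ∀ p ∈ antidiagonal m, PowerSeries.coeff p.1
      (PowerSeries.mk fun m => ((Ei (ppi d σ) (fun v => k - (v.2 : ℕ)) m).card : ℚ)) *
      PowerSeries.coeff p.2 (Chi w (thI r d k) hs) =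
      ∑ x ∈ (Ei (ppi d σ) (fun v => k - (v.2 : ℕ)) p.1) ×ˢ
        (Dm (Fin r × Fin d) p.2).filter (fun b => qt k b = 0), g x.2 := by
    intro p _
    rw [PowerSeries.coeff_mk, Chi, PowerSeries.coeff_mk, h2, Finset.sum_product]
    simp
  rw [Finset.sum_congr rfl h3, Finset.sum_sigma']
  refine Finset.sum_bij' (fun c _ => ⟨((qt k c).degree, (rm k c).degree), (qt k c, rm k c)⟩)
    (fun x _ => x.2.1 + x.2.2) ?_ ?_ ?_ ?_ ?_
  · intro c hc
    simp only [mem_filter, mem_Dm] at hc
    simp only [Ei, mem_sigma, Finset.HasAntidiagonal.mem_antidiagonal, mem_product, mem_filter, mem_Dm]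
    refine ⟨?_, ⟨trivial, Dv_qt k c, hc.2⟩, trivial, ?_⟩
    · rw [← map_add, qt_add_rm]; exact hc.1
    · rw [qt_eq_zero_iff hdk]; exact rm_lt hdk c
  · rintro ⟨p, e, b⟩ hx
    simp only [Ei, mem_sigma, Finset.HasAntidiagonal.mem_antidiagonal, mem_product, mem_filter, mem_Dm] at hx
    obtain ⟨h4, ⟨h5, h6, h7⟩, h8, h9⟩ := hx
    simp only [mem_filter, mem_Dm]
    have h10 := qt_add hdk h6 h9
    refine ⟨?_, ?_⟩
    · rw [map_add]; omega
    · rw [h10.1]; exact h7
  · intro c hc
    exact qt_add_rm k c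
  · rintro ⟨p, e, b⟩ hx
    simp only [Ei, mem_sigma, Finset.HasAntidiagonal.mem_antidiagonal, mem_product, mem_filter, mem_Dm] at hx
    obtain ⟨h4, ⟨h5, h6, h7⟩, h8, h9⟩ := hx
    have h10 := qt_add hdk h6 h9
    simp only [h10.1, h10.2, h5, h8]
  · intro c hc
    rfl

/-- the graded character of `B_k` -/
theorem Chi_th {w : Equiv.Perm (Fin r × Fin d)} {σ : Equiv.Perm (Fin r)} (h : Over w σ) {k : ℕ}
    (hdk : d ≤ k) (hs : Stab w (thI r d k)) :
    Chi w (thI r d k) hs * ∏ O ∈ cyc w, (1 - (PowerSeries.X : PowerSeries ℚ) ^ O.card) =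
      ∏ O ∈ cyc (ppi d σ), (1 - (PowerSeries.X : PowerSeries ℚ) ^ (∑ v ∈ O, (k - (v.2 : ℕ)))) := by
  have h1 := cnt w (fun _ => 1) (fun _ => one_pos) (fun _ => rfl)
  have h2 := cnt (ppi d σ) (fun v => k - (v.2 : ℕ)) (fun v => kap_pos hdk v) (fun _ => rfl)
  rw [series_factor h hdk hs] at h1
  simp only [Finset.sum_const, smul_eq_mul, mul_one] at h1
  set A := (PowerSeries.mk fun m => ((Ei (ppi d σ) (fun v => k - (v.2 : ℕ)) m).card : ℚ))
  set B := ∏ O ∈ cyc (ppi d σ), (1 - (PowerSeries.X : PowerSeries ℚ) ^ (∑ v ∈ O, (k - (v.2 : ℕ))))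
  set C := Chi w (thI r d k) hs
  set D := ∏ O ∈ cyc w, (1 - (PowerSeries.X : PowerSeries ℚ) ^ O.card)
  calc C * D = (A * B) * (C * D) := by rw [h2, one_mul]
    _ = (A * C * D) * B := by ring
    _ = B := by rw [h1, one_mul]

end th

end Pool.Agent.H30.BQR
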