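import Pool.Agent.H30.BQR.Avg

set_option autoImplicit false
set_option linter.unusedSectionVars false

namespace Pool.Agent.H30.BQR

open MvPolynomial Finset Module

section main
variable {r d : ℕ}

lemma fH_deg_zero (w : Equiv.Perm (Fin r × Fin d)) (x : homogeneousSubmodule (Fin r × Fin d) ℚ 0) :
    fH w 0 x = x := by
  apply Subtype.ext
  rw [fH_coe]
  have h1 : (x : MvPolynomial (Fin r × Fin d) ℚ) = C (coeff 0 (x : MvPolynomial (Fin r × Fin d) ℚ)) := by
    have h2 := homogeneousComponent_of_mem (m := 0) x.2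
    rw [if_pos rfl, homogeneousComponent_zero] at h2
    exact h2.symm
  rw [h1, rename_C]

lemma act_deg_zero {w : Equiv.Perm (Fin r × Fin d)} {σ : Equiv.Perm (Fin r)} (h : Over w σ) (k s : ℕ)
    (x : homogeneousSubmodule (Fin r × Fin d) ℚ 0 ⧸ gp (Jk r d k s) 0) : act h k s 0 x = x := by
  obtain ⟨x, rfl⟩ := Submodule.Quotient.mk_surjective _ x
  rw [act_mk, fH_deg_zero]

lemma one_notMem : (1 : MvPolynomial (Fin r × Fin d) ℚ) ∉ Jk r d d 0 := by
  have h1 : Jk r d d 0 ≤ RingHom.ker (constantCoeff : MvPolynomial (Fin r × Fin d) ℚ →+* ℚ) := by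
    have key : ∀ m, 0 < m → ∀ f ∈ homogeneousSubmodule (Fin r × Fin d) ℚ m, constantCoeff f = 0 := by
      intro m hm f hf
      rw [constantCoeff_eq]
      exact IsHomogeneous.coeff_eq_zero hf (by simpa using hm.ne)
    apply Jk_le
    · intro i m hm
      rw [RingHom.mem_ker]
      exact key m (by omega) _ (hh_hom _ _)
    · intro m hm
      rw [RingHom.mem_ker]
      exact key m (by omega) _ (em_hom _ _)
  intro h
  have := h1 h
  rw [RingHom.mem_ker, map_one] at this
  exact one_ne_zero this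

lemma finrank_InvS_zero : 1 ≤ finrank ℚ (InvS r d d 0 0) := by
  rw [Nat.one_le_iff_ne_zero]
  intro h
  rw [Module.finrank_zero_iff] at h
  have h1 : (Submodule.Quotient.mk ⟨1, isHomogeneous_one _ _⟩ :
      homogeneousSubmodule (Fin r × Fin d) ℚ 0 ⧸ gp (Jk r d d 0) 0) ∈ InvS r d d 0 0 := by
    intro u hu
    exact act_deg_zero hu _ _ _
  have h2 := congrArg Subtype.val (Subsingleton.elim (⟨_, h1⟩ : InvS r d d 0 0) 0)
  simp only [Submodule.coe_zero, Submodule.Quotient.mk_eq_zero] at h2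
  exact one_notMem h2

lemma finrank_InvS (m : ℕ) : finrank ℚ (InvS r d d 0 m) = if m = 0 then 1 else 0 := by
  have h1 := sum_finrank_InvS_le (r := r) (d := d)
  have h2 := finrank_InvS_zero (r := r) (d := d)
  by_cases hm : m < r * d * d + 1
  · rw [Finset.sum_range_succ'] at h1
    split_ifs with h0
    · subst h0; omega
    · obtain ⟨m, rfl⟩ : ∃ j, m = j + 1 := ⟨m - 1, by omega⟩
      have h3 := Finset.single_le_sum (f := fun j => finrank ℚ (InvS r d d 0 (j + 1))) (fun _ _ => Nat.zero_le _)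
        (mem_range.mpr (show m < r * d * d by omega))
      omega
  · rw [if_neg (by omega)]
    have hO : Over (1 : Equiv.Perm (Fin r × Fin d)) 1 := fun _ => rfl
    have h3 : (finrank ℚ (InvS r d d 0 m) : ℚ) = ichi hO d 0 m := by
      rw [← LinearMap.trace_id]
      unfold ichi
      congr 1
      ext x
      change (x : (homogeneousSubmodule (Fin r × Fin d) ℚ m ⧸ gp (Jk r d d 0) m)) = act hO d 0 m x
      rw [act_one]
    rw [ichi_eq, Finset.sum_eq_zero, mul_zero] at h3
    · exact_mod_cast h3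
    · intro u _
      exact chi_B_big (Over_mul_yng hO u.2) le_rfl (by omega)

lemma ichi_B {w : Equiv.Perm (Fin r × Fin d)} {σ : Equiv.Perm (Fin r)} (h : Over w σ) :
    (PowerSeries.mk fun m => ichi h d 0 m) = 1 := by
  ext m
  rw [PowerSeries.coeff_mk, PowerSeries.coeff_one]
  have h1 := finrank_InvS (r := r) (d := d) m
  split_ifs at h1 ⊢ with hm
  · subst hm
    have h2 : ichi h d 0 0 = (finrank ℚ (InvS r d d 0 0) : ℚ) := by
      rw [← LinearMap.trace_id]
      unfold ichi
      congr 1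
      ext x
      change act h d 0 0 x = (x : (homogeneousSubmodule (Fin r × Fin d) ℚ 0 ⧸ gp (Jk r d d 0) 0))
      rw [act_deg_zero]
    rw [h2, h1]; norm_num
  · rw [Module.finrank_zero_iff] at h1
    unfold ichi
    rw [show (act h d 0 m).restrict (act_InvS h d 0 m) = 0 from LinearMap.ext fun x => Subsingleton.elim _ _,
      map_zero]

/-- the averaged series -/
noncomputable def Mser (w : Equiv.Perm (Fin r × Fin d)) : PowerSeries ℚ :=
  PowerSeries.C ((Fintype.card (Yng r d) : ℚ)⁻¹) *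
    ∑ u : Yng r d, PowerSeries.mk fun m => ((Ei (w * (u : Equiv.Perm (Fin r × Fin d))) (fun _ => 1) m).card : ℚ)

lemma Chi_B' {w : Equiv.Perm (Fin r × Fin d)} {σ : Equiv.Perm (Fin r)} (hr : 0 < r) (h : Over w σ) (j : ℕ) :
    Chi w (Jk r d j 0) (Stab_Jk h _ _) = Pj d σ j * PowerSeries.mk fun m => ((Ei w (fun _ => 1) m).card : ℚ) := by
  have h1 := Chi_B hr h j
  have h2 := cnt w (fun _ => 1) (fun _ => one_pos) (fun _ => rfl)
  simp only [Finset.sum_const, smul_eq_mul, mul_one] at h2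
  rw [← h1, mul_assoc, mul_comm (∏ O ∈ cyc w, _), h2, mul_one]

lemma avg_B {w : Equiv.Perm (Fin r × Fin d)} {σ : Equiv.Perm (Fin r)} (hr : 0 < r) (h : Over w σ) (j : ℕ) :
    PowerSeries.C ((Fintype.card (Yng r d) : ℚ)⁻¹) *
      ∑ u : Yng r d, Chi (w * (u : Equiv.Perm (Fin r × Fin d))) (Jk r d j 0)
        (Stab_Jk (Over_mul_yng h u.2) _ _) = ∏ c ∈ cyc σ, qBin (PowerSeries.X ^ c.card) j d := by
  have key : ∀ j, PowerSeries.C ((Fintype.card (Yng r d) : ℚ)⁻¹) *
      ∑ u : Yng r d, Chi (w * (u : Equiv.Perm (Fin r × Fin d))) (Jk r d j 0)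
        (Stab_Jk (Over_mul_yng h u.2) _ _) = Pj d σ j * Mser w := by
    intro j
    unfold Mser
    rw [mul_left_comm]
    congr 1
    rw [Finset.mul_sum]
    exact Finset.sum_congr rfl fun u _ => Chi_B' hr (Over_mul_yng h u.2) j
  rw [key, Pj_eq, mul_assoc, ← key, ← ichi_series h, ichi_B h, mul_one]

/-- Q1, internal form -/
theorem Q1_internal {w : Equiv.Perm (Fin r × Fin d)} {σ : Equiv.Perm (Fin r)} (hr : 0 < r) (h : Over w σ)
    (k : ℕ) (hk : k ≤ r * d) :
    (PowerSeries.mk fun m => ichi h k k m) =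
      ∑ t ∈ range (k + 1), (-1) ^ t * PowerSeries.X ^ (t * (r * d - k) + t * (t + 1) / 2) *
        qBin PowerSeries.X k t * ∏ c ∈ cyc σ, qBin (PowerSeries.X ^ c.card) (k - t) d := by
  rw [ichi_series]
  have h1 : ∀ u : Yng r d, Chi (w * (u : Equiv.Perm (Fin r × Fin d))) (Jk r d k k)
        (Stab_Jk (Over_mul_yng h u.2) k k) = ∑ t ∈ range (k + 1), (-1) ^ t *
      PowerSeries.X ^ (t * (r * d - k) + t * (t + 1) / 2) * qBin PowerSeries.X k t *
        Chi (w * (u : Equiv.Perm (Fin r × Fin d))) (Jk r d (k - t) 0) (Stab_Jk (Over_mul_yng h u.2) _ _) := by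
    intro u
    rw [Chi_solve hr (Over_mul_yng h u.2) k hk k le_rfl]
    simp only [qBin_X]
  rw [Finset.sum_congr rfl (fun u _ => h1 u), Finset.sum_comm, Finset.mul_sum]
  apply Finset.sum_congr rfl
  intro t _
  rw [← Finset.mul_sum, mul_left_comm, avg_B hr h]

end main

end Pool.Agent.H30.BQR
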