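import Mathlib

set_option autoImplicit false
set_option linter.unusedSectionVars false

namespace Pool.Agent.H30.BQR

open Module

variable {K : Type*} [Field K]

/-- additivity of the trace in short exact sequences -/
theorem trace_exact {A B C : Type*} [AddCommGroup A] [AddCommGroup B] [AddCommGroup C]
    [Module K A] [Module K B] [Module K C] [Module.Finite K A] [Module.Finite K B] [Module.Finite K C]
    (i : A →ₗ[K] B) (p : B →ₗ[K] C) (hi : Function.Injective i) (hp : Function.Surjective p)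
    (hex : LinearMap.ker p = LinearMap.range i)
    (fA : A →ₗ[K] A) (fB : B →ₗ[K] B) (fC : C →ₗ[K] C)
    (h1 : ∀ a, fB (i a) = i (fA a)) (h2 : ∀ b, fC (p b) = p (fB b)) :
    LinearMap.trace K B fB = LinearMap.trace K A fA + LinearMap.trace K C fC := by
  obtain ⟨s, hs⟩ := p.exists_rightInverse_of_surjective (LinearMap.range_eq_top.mpr hp)
  obtain ⟨g, hg⟩ := i.exists_leftInverse_of_injective (LinearMap.ker_eq_bot.mpr hi)
  have hs' : ∀ c, p (s c) = c := fun c => LinearMap.congr_fun hs c
  have hg' : ∀ a, g (i a) = a := fun a => LinearMap.congr_fun hg a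
  have hpi : ∀ a, p (i a) = 0 := by
    intro a
    have : i a ∈ LinearMap.ker p := by rw [hex]; exact ⟨a, rfl⟩
    exact this
  set r : B →ₗ[K] A := g ∘ₗ (LinearMap.id - s ∘ₗ p) with hr
  have hir : ∀ b, i (r b) = b - s (p b) := by
    intro b
    have : b - s (p b) ∈ LinearMap.ker p := by
      rw [LinearMap.mem_ker, map_sub, hs', sub_self]
    rw [hex] at this
    obtain ⟨a, ha⟩ := this
    have : r b = g (b - s (p b)) := by simp [hr]
    rw [this, ← ha, hg']
  have hri : ∀ a, r (i a) = a := by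
    intro a
    simp [hr, hpi, hg']
  have e1 : fB = (fB ∘ₗ i) ∘ₗ r + (fB ∘ₗ s) ∘ₗ p := by
    ext b
    simp only [LinearMap.add_apply, LinearMap.comp_apply]
    rw [hir, ← map_add]; congr 1; abel
  rw [e1, map_add, LinearMap.trace_comp_comm' r (fB ∘ₗ i), LinearMap.trace_comp_comm' p (fB ∘ₗ s)]
  congr 2
  · ext a
    simp only [LinearMap.comp_apply]
    rw [h1, hri]
  · ext c
    simp only [LinearMap.comp_apply]
    rw [← h2, hs']

/-- trace on the span of part of a basis -/
theorem trace_span_basis {ι M : Type*} [AddCommGroup M] [Module K M] [DecidableEq ι] (Φ : Basis ι K M)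
    (S : Finset ι) (U : Submodule K M) (hU : U = Submodule.span K (Φ '' S)) (f : M →ₗ[K] M)
    (hf : ∀ u ∈ U, f u ∈ U) :
    Module.Finite K U ∧ finrank K U = S.card ∧
    LinearMap.trace K U (f.restrict hf) = ∑ i ∈ S, Φ.repr (f (Φ i)) i := by
  have hmem : ∀ i : S, Φ i ∈ U := fun i => by rw [hU]; exact Submodule.subset_span ⟨i, i.2, rfl⟩
  have hli : LinearIndependent K (fun i : S => (⟨Φ i, hmem i⟩ : U)) := by
    apply LinearIndependent.of_comp U.subtype
    exact Φ.linearIndependent.comp (fun i : S => (i : ι)) Subtype.val_injective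
  have hsp : ⊤ ≤ Submodule.span K (Set.range (fun i : S => (⟨Φ i, hmem i⟩ : U))) := by
    rintro ⟨u, hu⟩ -
    have h2 : U.subtype ⟨u, hu⟩ ∈ Submodule.map U.subtype (Submodule.span K (Set.range (fun i : S => (⟨Φ i, hmem i⟩ : U)))) := by
      rw [Submodule.map_span, ← Set.range_comp]
      have : Set.range (⇑U.subtype ∘ fun i : S => (⟨Φ i, hmem i⟩ : U)) = Φ '' S := by
        ext x; constructor
        · rintro ⟨i, rfl⟩; exact ⟨i, i.2, rfl⟩
        · rintro ⟨i, hi, rfl⟩; exact ⟨⟨i, hi⟩, rfl⟩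
      rw [this, ← hU]; exact hu
    obtain ⟨w, hw, hwu⟩ := h2
    have : w = ⟨u, hu⟩ := Subtype.ext hwu
    rw [← this]; exact hw
  set b : Basis S K U := Basis.mk hli hsp with hb
  have hrepr : ∀ (u : U) (i : S), b.repr u i = Φ.repr (u : M) i := by
    intro u i
    have h3 : b.coord i = (Φ.coord (i : ι)) ∘ₗ U.subtype := by
      apply b.ext
      intro j
      rw [Basis.coord_apply, Basis.repr_self, LinearMap.comp_apply, Basis.coord_apply]
      have : U.subtype (b j) = Φ j := by rw [hb, Basis.mk_apply]; rfl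
      rw [this, Basis.repr_self, Finsupp.single_apply, Finsupp.single_apply]
      by_cases h : j = i
      · subst h; simp
      · rw [if_neg h, if_neg (fun h' => h (Subtype.ext h'))]
    have := LinearMap.congr_fun h3 u
    simpa using this
  refine ⟨Module.Finite.of_basis b, by rw [Module.finrank_eq_card_basis b]; simp, ?_⟩
  rw [LinearMap.trace_eq_matrix_trace K b, Matrix.trace, ← Finset.sum_coe_sort S]
  apply Finset.sum_congr rfl
  intro i _
  rw [Matrix.diag_apply, LinearMap.toMatrix_apply, hrepr]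
  have : b i = ⟨Φ i, hmem i⟩ := by rw [hb, Basis.mk_apply]
  rw [this]; rfl

/-- the trace of `f` induced on `M / U` -/
noncomputable def qtr {M : Type*} [AddCommGroup M] [Module K M] (U : Submodule K M) (f : M →ₗ[K] M)
    (hf : U ≤ U.comap f) : K := LinearMap.trace K (M ⧸ U) (U.mapQ U f hf)

lemma trace_eq_qtr {M : Type*} [AddCommGroup M] [Module K M] [Module.Finite K M] (U : Submodule K M)
    (f : M →ₗ[K] M) (hf : U ≤ U.comap f) :
    LinearMap.trace K M f = LinearMap.trace K U (f.restrict hf) + qtr U f hf := by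
  refine trace_exact U.subtype U.mkQ (Subtype.val_injective) (Submodule.mkQ_surjective U)
    (by rw [Submodule.ker_mkQ, Submodule.range_subtype]) _ _ _ (fun a => rfl) (fun b => ?_)
  simp

/-- additivity for quotients -/
lemma qtr_add {M N : Type*} [AddCommGroup M] [Module K M] [Module.Finite K M]
    [AddCommGroup N] [Module K N] [Module.Finite K N] (φ : M →ₗ[K] N)
    (U : Submodule K M) (W1 W2 : Submodule K N) (h12 : W1 ≤ W2) (hU : W1.comap φ = U)
    (hW : ∀ w ∈ W2, ∃ m, ∃ w' ∈ W1, w = φ m + w') (hφW : ∀ m, φ m ∈ W2)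
    (f : M →ₗ[K] M) (g : N →ₗ[K] N) (hfU : U ≤ U.comap f) (hg1 : W1 ≤ W1.comap g) (hg2 : W2 ≤ W2.comap g)
    (hc : ∀ m, g (φ m) = φ (f m)) :
    qtr W1 g hg1 = qtr U f hfU + qtr W2 g hg2 := by
  refine trace_exact (U.mapQ W1 φ (by rw [hU])) (W1.mapQ W2 LinearMap.id (by simpa using h12)) ?_ ?_ ?_ _ _ _ ?_ ?_
  · rw [← LinearMap.ker_eq_bot, LinearMap.ker_eq_bot']
    intro x hx
    obtain ⟨x, rfl⟩ := Submodule.mkQ_surjective U x
    rw [Submodule.mkQ_apply, Submodule.mapQ_apply, Submodule.Quotient.mk_eq_zero] at hx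
    rw [Submodule.mkQ_apply, Submodule.Quotient.mk_eq_zero, ← hU]
    exact hx
  · intro x
    obtain ⟨x, rfl⟩ := Submodule.mkQ_surjective W2 x
    exact ⟨W1.mkQ x, by simp⟩
  · ext x
    obtain ⟨x, rfl⟩ := Submodule.mkQ_surjective W1 x
    rw [LinearMap.mem_ker, LinearMap.mem_range]
    constructor
    · intro h
      rw [Submodule.mkQ_apply, Submodule.mapQ_apply, LinearMap.id_apply, Submodule.Quotient.mk_eq_zero] at h
      obtain ⟨m, w', hw', hx⟩ := hW x h
      refine ⟨U.mkQ m, ?_⟩
      rw [Submodule.mkQ_apply, Submodule.mkQ_apply, Submodule.mapQ_apply, Submodule.Quotient.eq, hx]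
      simpa using hw'
    · rintro ⟨y, hy⟩
      obtain ⟨y, rfl⟩ := Submodule.mkQ_surjective U y
      rw [← hy, Submodule.mkQ_apply, Submodule.mapQ_apply, Submodule.mapQ_apply, LinearMap.id_apply,
        Submodule.Quotient.mk_eq_zero]
      exact hφW y
  · intro x
    obtain ⟨x, rfl⟩ := Submodule.mkQ_surjective U x
    simp [hc]
  · intro x
    obtain ⟨x, rfl⟩ := Submodule.mkQ_surjective W1 x
    simp

end Pool.Agent.H30.BQR
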