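import Pool.Agent.H30.BQR.Inv

set_option autoImplicit false
set_option linter.unusedSectionVars false

namespace Pool.Agent.H30.BQR

open MvPolynomial Finset Module

section link
variable {V : Type*} [Fintype V] [DecidableEq V]

lemma em_univ_eq (m : ℕ) : em (univ : Finset V) m = (-1) ^ m * esymm V ℚ m := by
  unfold em Es
  simp_rw [sub_eq_add_neg]
  rw [Finset.prod_one_add, map_sum]
  have h1 : ∀ t ∈ (univ : Finset V).powerset, PowerSeries.coeff m (∏ v ∈ t, -(PowerSeries.C (X v : MvPolynomial V ℚ) * PowerSeries.X)) =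
      if t.card = m then (-1) ^ m * ∏ v ∈ t, X v else 0 := by
    intro t _
    have h2 : ∏ v ∈ t, -(PowerSeries.C (X v : MvPolynomial V ℚ) * PowerSeries.X) =
        PowerSeries.C ((-1) ^ t.card * ∏ v ∈ t, X v) * PowerSeries.X ^ t.card := by
      rw [Finset.prod_neg, Finset.prod_mul_distrib, Finset.prod_const, map_mul, map_pow, map_prod]
      simp only [map_neg, map_one]
      ring
    rw [h2, PowerSeries.coeff_C_mul, PowerSeries.coeff_X_pow]
    by_cases h : t.card = m
    · subst h; simp
    · rw [if_neg h, if_neg (Ne.symm h), mul_zero]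
  rw [Finset.sum_congr rfl h1, ← Finset.sum_filter, ← Finset.mul_sum]
  congr 1
  unfold esymm
  apply Finset.sum_congr _ (fun _ _ => rfl)
  ext t
  simp [mem_powersetCard]

lemma prod_map_X (s : Multiset V) : (s.map (X : V → MvPolynomial V ℚ)).prod = monomial (Multiset.toFinsupp s) 1 := by
  induction s using Multiset.induction_on with
  | empty => simp
  | cons a s ih =>
    rw [Multiset.map_cons, Multiset.prod_cons, ih, ← Multiset.singleton_add, Multiset.toFinsupp_add,
      Multiset.toFinsupp_singleton]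
    rw [show (X a : MvPolynomial V ℚ) = monomial (Finsupp.single a 1) 1 from rfl, monomial_mul, one_mul]

lemma hh_univ_eq (m : ℕ) : hh (univ : Finset V) m = hsymm V ℚ m := by
  unfold hh Hs
  rw [PowerSeries.coeff_prod]
  have h1 : ∀ l ∈ finsuppAntidiag (univ : Finset V) m, ∏ v, PowerSeries.coeff (l v) (geo (X v : MvPolynomial V ℚ)) =
      monomial l 1 := by
    intro l _
    rw [monomial_eq, C_1, one_mul, Finsupp.prod_fintype _ _ (by simp)]
    simp [geo]
  rw [Finset.sum_congr rfl h1]
  unfold hsymm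
  symm
  refine Finset.sum_bij' (fun (s : Sym V m) _ => Multiset.toFinsupp (s : Multiset V))
    (fun l hl => (⟨Finsupp.toMultiset l, ?_⟩ : Sym V m)) ?_ ?_ ?_ ?_ ?_
  · have h2 : l ∈ Dm V m := hl
    rw [mem_Dm, Finsupp.degree_eq_sum] at h2
    rw [Finsupp.card_toMultiset, ← h2, Finsupp.sum_fintype _ _ (by simp)]
    rfl
  · intro s _
    have h2 := Multiset.toFinsupp_sum_eq (s : Multiset V)
    have h3 : Multiset.toFinsupp (s : Multiset V) ∈ Dm V m := by
      rw [mem_Dm, Finsupp.degree_eq_sum]
      rw [Finsupp.sum_fintype _ _ (by simp)] at h2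
      simp only [id] at h2
      rw [h2]; exact s.2
    exact h3
  · intro l _; exact mem_univ _
  · intro s _
    apply Subtype.ext
    exact Multiset.toFinsupp_toMultiset _
  · intro l _
    exact Finsupp.toMultiset_toFinsupp l
  · intro s _
    exact prod_map_X _

end link

section batch
variable {r d : ℕ}

lemma hh_bat (i : Fin r) (m : ℕ) :
    hh (bat r d i) m = rename (fun j : Fin d => (i, j)) (hsymm (Fin d) ℚ m) := by
  rw [← hh_univ_eq]
  have h : bat r d i = (univ : Finset (Fin d)).map ⟨fun j => (i, j), fun a b h => by simpa using h⟩ := by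
    ext v
    simp only [bat, bt, mem_filter, mem_univ, true_and, mem_map, Function.Embedding.coeFn_mk]
    constructor
    · intro h; exact ⟨v.2, by rw [← h]⟩
    · rintro ⟨j, rfl⟩; rfl
  have h1 : PowerSeries.map (rename (fun j : Fin d => (i, j)) : MvPolynomial (Fin d) ℚ →ₐ[ℚ] _).toRingHom
      (Hs (univ : Finset (Fin d))) = Hs (bat r d i) := by
    unfold Hs
    rw [map_prod, h, Finset.prod_map]
    apply Finset.prod_congr rfl
    intro v _
    ext n
    simp [geo, PowerSeries.coeff_map]
  unfold hh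
  rw [← h1, PowerSeries.coeff_map]; rfl

/-- the ideal with the generators of the problem -/
lemma span_eq_Jk {k : ℕ} (hdk : d ≤ k) :
    Ideal.span ({f | ∃ (i : Fin r) (m : ℕ), k < m + d ∧ m ≤ k ∧
        f = rename (fun j : Fin d => (i, j)) (hsymm (Fin d) ℚ m)} ∪
      {f | ∃ m : ℕ, r * d < m + k ∧ m ≤ r * d ∧ f = esymm (Fin r × Fin d) ℚ m}) = Jk r d k k := by
  apply le_antisymm
  · rw [Ideal.span_le]
    rintro f (⟨i, m, h1, h2, rfl⟩ | ⟨m, h1, h2, rfl⟩)
    · rw [← hh_bat]; exact Jk_hh h1
    · have h3 := Jk_em (r := r) (d := d) (k := k) (s := k) h1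
      rw [em_univ_eq] at h3
      have h4 : esymm (Fin r × Fin d) ℚ m = (-1) ^ m * ((-1) ^ m * esymm (Fin r × Fin d) ℚ m) := by
        rw [← mul_assoc, ← mul_pow]; simp
      rw [SetLike.mem_coe, h4]
      exact Ideal.mul_mem_left _ _ h3
  · apply Jk_le
    · intro i m hm
      have h1 := hh_mem_span (r := r) (d := d) (k := k) i m hm
      refine Ideal.span_le.mpr ?_ h1
      rintro _ ⟨v, rfl⟩
      apply Ideal.subset_span
      left
      refine ⟨v.1, k - (v.2 : ℕ), ?_, by omega, ?_⟩
      · have := v.2.2; omega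
      · unfold th; rw [hh_bat]
    · intro m hm
      by_cases h : m ≤ r * d
      · rw [em_univ_eq]
        exact Ideal.mul_mem_left _ _ (Ideal.subset_span (Or.inr ⟨m, hm, h, rfl⟩))
      · rw [em_eq_zero (by rw [card_V]; omega)]
        exact Ideal.zero_mem _

lemma Jk_top {k : ℕ} (h : r * d < k) : Jk r d k k = ⊤ := by
  rw [Ideal.eq_top_iff_one, ← em_zero (univ : Finset (Fin r × Fin d))]
  exact Jk_em (by omega)

end batch

/-- traces are invariant under bijective intertwiners -/
lemma trace_bij {K A B : Type*} [Field K] [AddCommGroup A] [Module K A] [AddCommGroup B] [Module K B]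
    (φ : A →ₗ[K] B) (hφ : Function.Bijective φ) (f : A →ₗ[K] A) (g : B →ₗ[K] B) (h : ∀ a, g (φ a) = φ (f a)) :
    LinearMap.trace K B g = LinearMap.trace K A f := by
  rw [← LinearMap.trace_conj' f (LinearEquiv.ofBijective φ hφ)]
  congr 1
  apply LinearMap.ext
  intro b
  obtain ⟨a, rfl⟩ := hφ.2 b
  rw [h, LinearEquiv.conj_apply]
  simp only [LinearMap.comp_apply, LinearEquiv.coe_coe]
  have : (LinearEquiv.ofBijective φ hφ).symm (φ a) = a := by
    rw [LinearEquiv.symm_apply_eq]; rfl
  rw [this]; rfl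

end Pool.Agent.H30.BQR
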