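import Pool.Agent.H30.BQR.Psi

set_option autoImplicit false
set_option linter.unusedSectionVars false

namespace Pool.Agent.H30.BQR

open MvPolynomial Finset Module

section D
variable {V : Type*} [Fintype V] [DecidableEq V]

/-- exponents of degree `m` -/
def Dm (V : Type*) [Fintype V] [DecidableEq V] (m : ℕ) : Finset (V →₀ ℕ) := finsuppAntidiag univ m

lemma mem_Dm {c : V →₀ ℕ} {m : ℕ} : c ∈ Dm V m ↔ c.degree = m := by
  rw [Dm, mem_finsuppAntidiag, Finsupp.degree_eq_sum]
  simp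

lemma hom_eq_span (m : ℕ) : homogeneousSubmodule V ℚ m =
    Submodule.span ℚ (basisMonomials V ℚ '' (Dm V m : Set (V →₀ ℕ))) := by
  rw [← Wm_degree]
  unfold Wm
  congr 1
  ext f
  constructor
  · rintro ⟨c, hc, rfl⟩
    exact ⟨c, by simpa [mem_Dm] using hc, by simp⟩
  · rintro ⟨c, hc, rfl⟩
    exact ⟨c, by simpa [mem_Dm] using hc, by simp⟩

/-- the action of `w` on the degree `m` part -/
noncomputable def fH (w : Equiv.Perm V) (m : ℕ) :
    homogeneousSubmodule V ℚ m →ₗ[ℚ] homogeneousSubmodule V ℚ m :=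
  (rename w : MvPolynomial V ℚ →ₐ[ℚ] MvPolynomial V ℚ).toLinearMap.restrict
    (fun _ hf => IsHomogeneous.rename_isHomogeneous hf)

instance hom_finite (m : ℕ) : Module.Finite ℚ (homogeneousSubmodule V ℚ m) :=
  (trace_span_basis (basisMonomials V ℚ) (Dm V m) _ (hom_eq_span m) LinearMap.id (fun _ h => h)).1

lemma finrank_hom (m : ℕ) : finrank ℚ (homogeneousSubmodule V ℚ m) = (Dm V m).card :=
  (trace_span_basis (basisMonomials V ℚ) (Dm V m) _ (hom_eq_span m) LinearMap.id (fun _ h => h)).2.1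

/-- the trace on the degree `m` part of the polynomial ring counts fixed monomials -/
lemma trace_fH (w : Equiv.Perm V) (m : ℕ) : LinearMap.trace ℚ _ (fH w m) =
    ((Dm V m).filter (fun c => c.mapDomain w = c)).card := by
  have := (trace_span_basis (basisMonomials V ℚ) (Dm V m) _ (hom_eq_span m)
    (rename w : MvPolynomial V ℚ →ₐ[ℚ] MvPolynomial V ℚ).toLinearMap
    (fun _ hf => IsHomogeneous.rename_isHomogeneous hf)).2.2
  unfold fH
  rw [this, Finset.card_filter]
  push_cast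
  apply Finset.sum_congr rfl
  intro c _
  rw [AlgHom.toLinearMap_apply, coe_basisMonomials]
  rw [rename_monomial]
  have h2 : (basisMonomials V ℚ).repr (monomial (c.mapDomain w) 1) = Finsupp.single (c.mapDomain w) 1 := by
    have := (basisMonomials V ℚ).repr_self (c.mapDomain w)
    rwa [coe_basisMonomials] at this
  rw [h2, Finsupp.single_apply]

end D

section basis

variable {r d : ℕ}

lemma phi_li_deg {k : ℕ} (hdk : d ≤ k) (m : ℕ) (g : (Fin r × Fin d →₀ ℕ) → ℚ)
    (hg : ∑ c ∈ Dm (Fin r × Fin d) m, g c • phi k c = 0) : ∀ c ∈ Dm (Fin r × Fin d) m, g c = 0 := by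
  have hmem : ∀ c : Dm (Fin r × Fin d) m, phi k (c : Fin r × Fin d →₀ ℕ) ∈ homogeneousSubmodule (Fin r × Fin d) ℚ m := by
    intro c
    have := phi_hom k (c : Fin r × Fin d →₀ ℕ)
    rwa [mem_Dm.mp c.2] at this
  have hli : LinearIndependent ℚ (fun c : Dm (Fin r × Fin d) m => (⟨phi k c, hmem c⟩ :
      homogeneousSubmodule (Fin r × Fin d) ℚ m)) := by
    apply linearIndependent_of_top_le_span_of_card_eq_finrank
    · rintro ⟨u, hu⟩ -
      have h2 : (homogeneousSubmodule (Fin r × Fin d) ℚ m).subtype ⟨u, hu⟩ ∈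
          Submodule.map (homogeneousSubmodule (Fin r × Fin d) ℚ m).subtype
          (Submodule.span ℚ (Set.range (fun c : Dm (Fin r × Fin d) m => (⟨phi k c, hmem c⟩ :
      homogeneousSubmodule (Fin r × Fin d) ℚ m)))) := by
        rw [Submodule.map_span, ← Set.range_comp]
        have h3 := hom_le_Sp hdk m hu
        refine Submodule.span_mono ?_ h3
        rintro _ ⟨c, hc, rfl⟩
        exact ⟨⟨c, mem_Dm.mpr hc⟩, rfl⟩
      obtain ⟨w, hw, hwu⟩ := h2
      have : w = ⟨u, hu⟩ := Subtype.ext hwu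
      rw [← this]; exact hw
    · rw [finrank_hom]; simp
  rw [Fintype.linearIndependent_iff] at hli
  have h4 := hli (fun c => g c) (by
    apply Subtype.ext
    rw [Submodule.coe_zero, ← hg, ← Finset.sum_coe_sort (Dm (Fin r × Fin d) m), Submodule.coe_sum]
    rfl)
  intro c hc
  exact h4 ⟨c, hc⟩

lemma phi_li {k : ℕ} (hdk : d ≤ k) : LinearIndependent ℚ (phi (r := r) (d := d) k) := by
  rw [linearIndependent_iff']
  intro s g hg i hi
  have h1 : homogeneousComponent i.degree (∑ c ∈ s, g c • phi k c) =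
      ∑ c ∈ Dm (Fin r × Fin d) i.degree, (if c ∈ s then g c else 0) • phi k c := by
    rw [map_sum]
    have h2 : ∀ c ∈ s, homogeneousComponent i.degree (g c • phi k c) =
        if c.degree = i.degree then g c • phi k c else 0 := by
      intro c _
      rw [map_smul]
      have h3 := phi_hom k c
      split_ifs with h
      · rw [homogeneousComponent_of_mem h3, if_pos h.symm]
      · rw [homogeneousComponent_of_mem h3, if_neg (Ne.symm h), smul_zero]
    rw [Finset.sum_congr rfl h2, ← Finset.sum_filter]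
    have h3 : ∑ c ∈ Dm (Fin r × Fin d) i.degree, (if c ∈ s then g c else 0) • phi k c =
      ∑ c ∈ (Dm (Fin r × Fin d) i.degree).filter (fun c => c ∈ s), g c • phi k c := by
      rw [Finset.sum_filter]
      apply Finset.sum_congr rfl
      intro c _
      split_ifs <;> simp
    rw [h3]
    apply Finset.sum_congr _ (fun _ _ => rfl)
    ext c
    simp [mem_Dm, and_comm]
  rw [hg, map_zero] at h1
  have h2 := phi_li_deg hdk i.degree _ h1.symm i (mem_Dm.mpr rfl)
  rwa [if_pos hi] at h2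

/-- the basis -/
noncomputable def PhiB {k : ℕ} (hdk : d ≤ k) : Basis (Fin r × Fin d →₀ ℕ) ℚ (MvPolynomial (Fin r × Fin d) ℚ) :=
  Basis.mk (phi_li hdk) (by
    rintro f -
    rw [← sum_homogeneousComponent f]
    refine Submodule.sum_mem _ fun i _ => ?_
    have h1 := hom_le_Sp hdk i (homogeneousComponent_mem i f)
    refine Submodule.span_mono ?_ h1
    rintro _ ⟨c, hc, rfl⟩
    exact ⟨c, rfl⟩)

lemma PhiB_apply {k : ℕ} (hdk : d ≤ k) (c : Fin r × Fin d →₀ ℕ) : PhiB hdk c = phi k c := by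
  unfold PhiB; rw [Basis.mk_apply]

/-- divisible exponents -/
def Dv (k : ℕ) (e : Fin r × Fin d →₀ ℕ) : Prop := ∀ v, (k - (v.2 : ℕ)) ∣ e v

noncomputable def qt (k : ℕ) (c : Fin r × Fin d →₀ ℕ) : Fin r × Fin d →₀ ℕ :=
  Finsupp.equivFunOnFinite.symm fun v => (k - (v.2 : ℕ)) * (c v / (k - (v.2 : ℕ)))

noncomputable def rm (k : ℕ) (c : Fin r × Fin d →₀ ℕ) : Fin r × Fin d →₀ ℕ :=
  Finsupp.equivFunOnFinite.symm fun v => c v % (k - (v.2 : ℕ))

@[simp] lemma qt_apply (k : ℕ) (c : Fin r × Fin d →₀ ℕ) (v) : qt k c v = (k - (v.2 : ℕ)) * (c v / (k - (v.2 : ℕ))) := rfl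

@[simp] lemma rm_apply (k : ℕ) (c : Fin r × Fin d →₀ ℕ) (v) : rm k c v = c v % (k - (v.2 : ℕ)) := rfl

lemma Dv_qt (k : ℕ) (c : Fin r × Fin d →₀ ℕ) : Dv k (qt k c) := fun v => ⟨_, rfl⟩

lemma qt_add_rm (k : ℕ) (c : Fin r × Fin d →₀ ℕ) : qt k c + rm k c = c := by
  ext v; simp [Nat.div_add_mod]

lemma rm_lt {k : ℕ} (hdk : d ≤ k) (c : Fin r × Fin d →₀ ℕ) (v) : rm k c v < k - (v.2 : ℕ) := by
  rw [rm_apply]; exact Nat.mod_lt _ (kap_pos hdk v)

lemma phi_mul {k : ℕ} (hdk : d ≤ k) {e : Fin r × Fin d →₀ ℕ} (he : Dv k e) (c : Fin r × Fin d →₀ ℕ) :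
    phi k e * phi k c = phi k (e + c) := by
  unfold phi
  rw [← Finset.prod_mul_distrib]
  apply Finset.prod_congr rfl
  intro v _
  obtain ⟨t, ht⟩ := he v
  have hpos := kap_pos hdk v
  rw [Finsupp.add_apply, ht, Nat.mul_div_cancel_left _ hpos, Nat.mul_mod_right, Nat.mul_add_div hpos,
    Nat.mul_add_mod, pow_add]
  ring

lemma phi_split {k : ℕ} (hdk : d ≤ k) (c : Fin r × Fin d →₀ ℕ) :
    phi k c = phi k (qt k c) * monomial (rm k c) 1 := by
  rw [← phi_of_lt (rm_lt hdk c), phi_mul hdk (Dv_qt k c), qt_add_rm]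

lemma repr_phi_mul {k : ℕ} (hdk : d ≤ k) {e : Fin r × Fin d →₀ ℕ} (he : Dv k e)
    (f : MvPolynomial (Fin r × Fin d) ℚ) :
    (PhiB hdk).repr (phi k e * f) = ((PhiB hdk).repr f).mapDomain (e + ·) := by
  have h : (PhiB hdk).repr.toLinearMap ∘ₗ (LinearMap.mulLeft ℚ (phi k e)) =
      (Finsupp.lmapDomain ℚ ℚ (e + ·)) ∘ₗ (PhiB hdk).repr.toLinearMap := by
    apply (PhiB hdk).ext
    intro c
    simp only [LinearMap.comp_apply, LinearEquiv.coe_coe, LinearMap.mulLeft_apply]
    rw [PhiB_apply, phi_mul hdk he, ← PhiB_apply hdk, ← PhiB_apply hdk, Basis.repr_self, Basis.repr_self,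
      Finsupp.lmapDomain_apply, Finsupp.mapDomain_single]
  exact LinearMap.congr_fun h f

end basis

section act

variable {V : Type*} [DecidableEq V]

lemma rename_hh (w : Equiv.Perm V) (T : Finset V) (m : ℕ) :
    rename w (hh T m) = hh (T.image w) m := by
  have h1 : PowerSeries.map (rename w : MvPolynomial V ℚ →ₐ[ℚ] MvPolynomial V ℚ).toRingHom (Hs T) = Hs (T.image w) := by
    unfold Hs
    rw [map_prod, Finset.prod_image (fun a _ b _ h => w.injective h)]
    apply Finset.prod_congr rfl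
    intro v _
    ext n
    simp [geo, PowerSeries.coeff_map]
  unfold hh
  rw [← h1, PowerSeries.coeff_map]; rfl

lemma rename_em (w : Equiv.Perm V) (T : Finset V) (m : ℕ) :
    rename w (em T m) = em (T.image w) m := by
  have h1 : PowerSeries.map (rename w : MvPolynomial V ℚ →ₐ[ℚ] MvPolynomial V ℚ).toRingHom (Es T) = Es (T.image w) := by
    unfold Es
    rw [map_prod, Finset.prod_image (fun a _ b _ h => w.injective h)]
    apply Finset.prod_congr rfl
    intro v _
    simp
  unfold em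
  rw [← h1, PowerSeries.coeff_map]; rfl

end act

section act2

variable {r d : ℕ}

/-- `w` lies over `σ` -/
def Over (w : Equiv.Perm (Fin r × Fin d)) (σ : Equiv.Perm (Fin r)) : Prop := ∀ v, (w v).1 = σ v.1

lemma image_bat {w : Equiv.Perm (Fin r × Fin d)} {σ : Equiv.Perm (Fin r)} (h : Over w σ) (i : Fin r) :
    (bat r d i).image w = bat r d (σ i) := by
  ext v
  simp only [bat, bt, mem_image, mem_filter, mem_univ, true_and]
  constructor
  · rintro ⟨u, rfl, rfl⟩; exact h u
  · intro hv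
    refine ⟨w.symm v, ?_, by simp⟩
    have := h (w.symm v)
    rw [Equiv.apply_symm_apply, hv] at this
    exact (σ.injective this).symm

/-- the permutation `σ × id` -/
def ppi (d : ℕ) (σ : Equiv.Perm (Fin r)) : Equiv.Perm (Fin r × Fin d) := Equiv.prodCongr σ (Equiv.refl _)

lemma rename_th {w : Equiv.Perm (Fin r × Fin d)} {σ : Equiv.Perm (Fin r)} (h : Over w σ) (k : ℕ) (v) :
    rename w (th k v) = th k (ppi d σ v) := by
  unfold th
  rw [rename_hh, image_bat h]; rfl

lemma rename_phi {w : Equiv.Perm (Fin r × Fin d)} {σ : Equiv.Perm (Fin r)} (h : Over w σ) {k : ℕ}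
    (hdk : d ≤ k) {e : Fin r × Fin d →₀ ℕ} (he : Dv k e) :
    rename w (phi k e) = phi k (e.mapDomain (ppi d σ)) := by
  unfold phi
  rw [map_prod]
  conv_rhs => rw [← Equiv.prod_comp (ppi d σ)]
  apply Finset.prod_congr rfl
  intro v _
  rw [Finsupp.mapDomain_apply (ppi d σ).injective]
  obtain ⟨t, ht⟩ := he v
  have hpos := kap_pos hdk v
  have h2 : (k - ((ppi d σ v).2 : ℕ)) = k - (v.2 : ℕ) := rfl
  rw [h2, ht, Nat.mul_mod_right, pow_zero, pow_zero, mul_one, mul_one, map_pow, rename_th h]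

lemma Dv_mapDomain {k : ℕ} (σ : Equiv.Perm (Fin r)) {e : Fin r × Fin d →₀ ℕ} (he : Dv k e) :
    Dv k (e.mapDomain (ppi d σ)) := by
  intro v
  obtain ⟨u, rfl⟩ := (ppi d σ).surjective v
  rw [Finsupp.mapDomain_apply (ppi d σ).injective]
  exact he u

/-- diagonal coefficients in the basis `phi` -/
lemma coeff_diag {w : Equiv.Perm (Fin r × Fin d)} {σ : Equiv.Perm (Fin r)} (h : Over w σ) {k : ℕ}
    (hdk : d ≤ k) (c : Fin r × Fin d →₀ ℕ) :
    (PhiB hdk).repr (rename w (PhiB hdk c)) c =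
      if (qt k c).mapDomain (ppi d σ) = qt k c then
        (PhiB hdk).repr (rename w (monomial (rm k c) 1)) (rm k c) else 0 := by
  rw [PhiB_apply, phi_split hdk c, map_mul, rename_phi h hdk (Dv_qt k c),
    repr_phi_mul hdk (Dv_mapDomain σ (Dv_qt k c))]
  have hinj : Function.Injective (fun x => (qt k c).mapDomain (ppi d σ) + x) := fun a b hab => by
    simpa using hab
  split_ifs with heq
  · have h5 := Finsupp.mapDomain_apply hinj ((PhiB hdk).repr (rename w (monomial (rm k c) 1))) (rm k c)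
    simp only [heq, qt_add_rm] at h5 ⊢
    exact h5
  · apply Finsupp.mapDomain_notin_range
    rintro ⟨x, hx⟩
    apply heq
    simp only at hx
    have h1 : ∀ v, (qt k c).mapDomain (ppi d σ) v ≤ qt k c v := by
      intro v
      have h2 : (qt k c).mapDomain (ppi d σ) v ≤ c v := by
        conv_rhs => rw [← hx]
        simp
      obtain ⟨t, ht⟩ := Dv_mapDomain σ (Dv_qt k c) v
      rw [ht] at h2 ⊢
      rw [qt_apply]
      apply Nat.mul_le_mul_left
      rw [Nat.le_div_iff_mul_le (kap_pos hdk v), mul_comm]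
      exact h2
    have h2 : ((qt k c).mapDomain (ppi d σ)).degree = (qt k c).degree := by
      rw [Finsupp.degree_eq_sum, Finsupp.degree_eq_sum, ← Equiv.sum_comp (ppi d σ)]
      apply Finset.sum_congr rfl
      intro v _
      rw [Finsupp.mapDomain_apply (ppi d σ).injective]
    rw [Finsupp.degree_eq_sum, Finsupp.degree_eq_sum] at h2
    ext v
    exact (Finset.sum_eq_sum_iff_of_le (fun v _ => h1 v)).mp h2 v (mem_univ v)

end act2

end Pool.Agent.H30.BQR
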