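import Pool.Agent.H30.BQR.Bnd
import Pool.Agent.H30.BQR.Lin

set_option autoImplicit false
set_option linter.unusedSectionVars false

namespace Pool.Agent.H30.BQR

open MvPolynomial Finset

section W
variable {V : Type*}

/-- span of the monomials with a property -/
noncomputable def Wm (P : (V →₀ ℕ) → Prop) : Submodule ℚ (MvPolynomial V ℚ) :=
  Submodule.span ℚ {f | ∃ c, P c ∧ f = monomial c 1}

lemma Wm_mono {P Q : (V →₀ ℕ) → Prop} (h : ∀ c, P c → Q c) : Wm P ≤ Wm Q := by
  apply Submodule.span_mono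
  rintro f ⟨c, hc, rfl⟩
  exact ⟨c, h c hc, rfl⟩

lemma monomial_mem_Wm {P : (V →₀ ℕ) → Prop} {c : V →₀ ℕ} (h : P c) : monomial c (1 : ℚ) ∈ Wm P :=
  Submodule.subset_span ⟨c, h, rfl⟩

lemma Wm_mul {P Q S : (V →₀ ℕ) → Prop} (h : ∀ c c', P c → Q c' → S (c + c'))
    {f g : MvPolynomial V ℚ} (hf : f ∈ Wm P) (hg : g ∈ Wm Q) : f * g ∈ Wm S := by
  have h1 := Submodule.mul_mem_mul hf hg
  unfold Wm at h1
  rw [Submodule.span_mul_span] at h1
  refine Submodule.span_mono ?_ h1
  rintro _ ⟨_, ⟨c, hc, rfl⟩, _, ⟨c', hc', rfl⟩, rfl⟩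
  exact ⟨c + c', h c c' hc hc', by simp [monomial_mul]⟩

lemma Wm_degree (m : ℕ) : Wm (fun c : V →₀ ℕ => c.degree = m) = homogeneousSubmodule V ℚ m := by
  apply le_antisymm
  · unfold Wm
    rw [Submodule.span_le]
    rintro f ⟨c, hc, rfl⟩
    exact isHomogeneous_monomial _ hc
  · intro f hf
    rw [mem_homogeneousSubmodule] at hf
    rw [f.as_sum]
    refine Submodule.sum_mem _ fun c hc => ?_
    have h1 : c.degree = m := by
      have := hf (mem_support_iff.mp hc)
      rw [Finsupp.degree_eq_weight_one]; exact this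
    have h2 : monomial c (coeff c f) = (coeff c f) • monomial c (1 : ℚ) := by
      rw [smul_monomial]; simp
    rw [h2]
    exact Submodule.smul_mem _ _ (monomial_mem_Wm h1)

lemma X_pow_mem_Wm {P : (V →₀ ℕ) → Prop} {v : V} {n : ℕ} (h : P (Finsupp.single v n)) :
    (X v : MvPolynomial V ℚ) ^ n ∈ Wm P := by
  rw [X_pow_eq_monomial]
  exact monomial_mem_Wm h

variable [DecidableEq V]

lemma em_hom (T : Finset V) : ∀ m, em T m ∈ homogeneousSubmodule V ℚ m := by
  induction T using Finset.induction_on with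
  | empty =>
    intro m
    cases m with
    | zero => rw [em_zero]; exact isHomogeneous_one _ _
    | succ m => rw [em_empty_succ]; exact Submodule.zero_mem _
  | insert v T hv ih =>
    intro m
    cases m with
    | zero => rw [em_zero]; exact isHomogeneous_one _ _
    | succ m =>
      rw [em_insert hv]
      refine Submodule.sub_mem _ (ih _) ?_
      have := (isHomogeneous_X ℚ v).mul ((mem_homogeneousSubmodule m _).mp (ih m))
      rw [mem_homogeneousSubmodule]
      rwa [add_comm] at this

lemma hh_hom (T : Finset V) : ∀ m, hh T m ∈ homogeneousSubmodule V ℚ m := by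
  induction T using Finset.induction_on with
  | empty =>
    intro m
    cases m with
    | zero => rw [hh_zero]; exact isHomogeneous_one _ _
    | succ m => rw [hh_empty_succ]; exact Submodule.zero_mem _
  | insert v T hv ih =>
    intro m
    induction m with
    | zero => rw [hh_zero]; exact isHomogeneous_one _ _
    | succ m ihm =>
      rw [hh_insert hv]
      refine Submodule.add_mem _ (ih _) ?_
      have := (isHomogeneous_X ℚ v).mul ((mem_homogeneousSubmodule m _).mp ihm)
      rw [mem_homogeneousSubmodule]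
      rwa [add_comm] at this

/-- expansion in powers of one variable -/
lemma hh_insert_expand {T : Finset V} {v : V} (hv : v ∉ T) (m : ℕ) :
    hh (insert v T) m = ∑ p ∈ antidiagonal m, (X v) ^ p.1 * hh T p.2 := by
  unfold hh Hs
  rw [Finset.prod_insert hv, PowerSeries.coeff_mul]
  simp [geo]

end W

section main

variable {r d : ℕ}

/-- weights -/
def rho (c : Fin r × Fin d →₀ ℕ) : ℕ := ∑ v, c v * (v.2 : ℕ)

lemma rho_add (c c' : Fin r × Fin d →₀ ℕ) : rho (c + c') = rho c + rho c' := by
  simp [rho, add_mul, Finset.sum_add_distrib]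

lemma rho_single (v : Fin r × Fin d) (n : ℕ) : rho (Finsupp.single v n) = n * (v.2 : ℕ) := by
  unfold rho
  rw [Finset.sum_eq_single v]
  · simp
  · intro w _ hw
    rw [Finsupp.single_apply, if_neg (Ne.symm hw), zero_mul]
  · simp

lemma hh_Wm (T : Finset (Fin r × Fin d)) (t : ℕ) (ht : ∀ v ∈ T, (v.2 : ℕ) ≤ t) :
    ∀ m, hh T m ∈ Wm (fun c => c.degree = m ∧ rho c ≤ m * t) := by
  induction T using Finset.induction_on with
  | empty =>
    intro m
    cases m with
    | zero =>
      rw [hh_zero]
      exact monomial_mem_Wm (c := 0) (by simp [rho])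
    | succ m => rw [hh_empty_succ]; exact Submodule.zero_mem _
  | insert v T hv ih =>
    intro m
    have ih' := ih (fun w hw => ht w (Finset.mem_insert_of_mem hw))
    induction m with
    | zero =>
      rw [hh_zero]
      exact monomial_mem_Wm (c := 0) (by simp [rho])
    | succ m ihm =>
      rw [hh_insert hv]
      refine Submodule.add_mem _ (ih' _) ?_
      have hX : (X v : MvPolynomial (Fin r × Fin d) ℚ) ∈ Wm (fun c => c.degree = 1 ∧ rho c ≤ t) := by
        rw [← pow_one (X v)]
        apply X_pow_mem_Wm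
        rw [rho_single]
        refine ⟨by simp, by simpa using ht v (Finset.mem_insert_self v T)⟩
      refine Wm_mul ?_ hX ihm
      rintro c c' ⟨h1, h2⟩ ⟨h3, h4⟩
      rw [map_add, rho_add]
      refine ⟨by omega, ?_⟩
      rw [add_mul]; omega

lemma hh_sub_pow {T : Finset (Fin r × Fin d)} {v : Fin r × Fin d} (hT : ∀ w ∈ T, w.2 < v.2) (m : ℕ) :
    hh (insert v T) m - (X v) ^ m ∈ Wm (fun c => c.degree = m ∧ rho c < m * (v.2 : ℕ)) := by
  have hv : v ∉ T := fun h => lt_irrefl _ (hT v h)
  rw [hh_insert_expand hv, ← Finset.add_sum_erase _ _ (show (m, 0) ∈ antidiagonal m by simp)]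
  simp only [hh_zero, mul_one, add_sub_cancel_left]
  refine Submodule.sum_mem _ fun p hp => ?_
  rw [mem_erase, Finset.HasAntidiagonal.mem_antidiagonal] at hp
  have hb : 1 ≤ p.2 := by
    by_contra h
    apply hp.1
    have h0 : p.2 = 0 := by omega
    ext
    · simp; omega
    · simp [h0]
  by_cases hj : (v.2 : ℕ) = 0
  · have hT0 : T = ∅ := by
      rw [Finset.eq_empty_iff_forall_notMem]
      intro w hw
      have := hT w hw
      rw [Fin.lt_def] at this
      omega
    subst hT0
    obtain ⟨b, hb'⟩ : ∃ b, p.2 = b + 1 := ⟨p.2 - 1, by omega⟩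
    rw [hb', hh_empty_succ, mul_zero]
    exact Submodule.zero_mem _
  · have h1 := hh_Wm T ((v.2 : ℕ) - 1) (fun w hw => by
      have := hT w hw
      rw [Fin.lt_def] at this
      omega) p.2
    have hX : (X v : MvPolynomial (Fin r × Fin d) ℚ) ^ p.1 ∈
        Wm (fun c => c.degree = p.1 ∧ rho c = p.1 * (v.2 : ℕ)) := by
      apply X_pow_mem_Wm
      rw [rho_single]
      exact ⟨by simp, rfl⟩
    refine Wm_mul ?_ hX h1
    rintro c c' ⟨h2, h3⟩ ⟨h4, h5⟩
    rw [map_add, rho_add]
    refine ⟨by omega, ?_⟩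
    have h6 : p.2 * ((v.2 : ℕ) - 1) < p.2 * (v.2 : ℕ) := Nat.mul_lt_mul_of_pos_left (by omega) (by omega)
    rw [← hp.2, add_mul]
    omega

/-- the batch `i` -/
def bat (r d : ℕ) (i : Fin r) : Finset (Fin r × Fin d) := bt Prod.fst univ i

/-- the generators `h_{k-j}` of batch `i` indexed by `(i,j)` -/
noncomputable def th (k : ℕ) (v : Fin r × Fin d) : MvPolynomial (Fin r × Fin d) ℚ :=
  hh (bat r d v.1) (k - (v.2 : ℕ))

noncomputable def phi (k : ℕ) (c : Fin r × Fin d →₀ ℕ) : MvPolynomial (Fin r × Fin d) ℚ :=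
  ∏ v, (th k v ^ (c v / (k - (v.2 : ℕ))) * X v ^ (c v % (k - (v.2 : ℕ))))

lemma kap_pos {k : ℕ} (hdk : d ≤ k) (v : Fin r × Fin d) : 0 < k - (v.2 : ℕ) := by
  have := v.2.2; omega

lemma th_mul_phi {k : ℕ} (hdk : d ≤ k) (v : Fin r × Fin d) (c : Fin r × Fin d →₀ ℕ) :
    th k v * phi k c = phi k (c + Finsupp.single v (k - (v.2 : ℕ))) := by
  have h1 : th k v = ∏ w, (if w = v then th k w else 1) := by
    rw [Finset.prod_ite_eq']; simp
  unfold phi
  rw [h1, ← Finset.prod_mul_distrib]
  apply Finset.prod_congr rfl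
  intro w _
  by_cases h : w = v
  · subst h
    have := kap_pos hdk w
    simp only [if_true, Finsupp.add_apply, Finsupp.single_eq_same]
    rw [Nat.add_div_right _ this, Nat.add_mod_right, pow_succ]
    ring
  · rw [if_neg h, one_mul, Finsupp.add_apply, Finsupp.single_apply, if_neg (Ne.symm h), add_zero]

lemma th_hom (k : ℕ) (v : Fin r × Fin d) : th k v ∈ homogeneousSubmodule (Fin r × Fin d) ℚ (k - (v.2 : ℕ)) :=
  hh_hom _ _

lemma phi_hom (k : ℕ) (c : Fin r × Fin d →₀ ℕ) :
    phi k c ∈ homogeneousSubmodule (Fin r × Fin d) ℚ c.degree := by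
  rw [mem_homogeneousSubmodule]
  have h1 : c.degree = ∑ v, ((k - (v.2 : ℕ)) * (c v / (k - (v.2 : ℕ))) + 1 * (c v % (k - (v.2 : ℕ)))) := by
    rw [Finsupp.degree_eq_sum]
    apply Finset.sum_congr rfl
    intro v _
    rw [one_mul, Nat.div_add_mod]
  rw [h1]
  apply IsHomogeneous.prod
  intro v _
  apply IsHomogeneous.mul
  · exact IsHomogeneous.pow (th_hom k v) _
  · exact IsHomogeneous.pow (isHomogeneous_X _ _) _

lemma phi_of_lt {k : ℕ} {c : Fin r × Fin d →₀ ℕ} (h : ∀ v, c v < k - (v.2 : ℕ)) :
    phi k c = monomial c 1 := by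
  rw [monomial_eq, C_1, one_mul, Finsupp.prod_fintype _ _ (by simp)]
  unfold phi
  apply Finset.prod_congr rfl
  intro v _
  rw [Nat.div_eq_of_lt (h v), Nat.mod_eq_of_lt (h v)]; simp

/-- span of `phi` in degree `m` -/
noncomputable def Sp (r d k m : ℕ) : Submodule ℚ (MvPolynomial (Fin r × Fin d) ℚ) :=
  Submodule.span ℚ {f | ∃ c, c.degree = m ∧ f = phi k c}

lemma Sp_le (k m : ℕ) : Sp r d k m ≤ homogeneousSubmodule (Fin r × Fin d) ℚ m := by
  unfold Sp
  rw [Submodule.span_le]
  rintro f ⟨c, rfl, rfl⟩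
  exact phi_hom k c

lemma th_mul_Sp {k : ℕ} (hdk : d ≤ k) (v : Fin r × Fin d) {m : ℕ} {f : MvPolynomial (Fin r × Fin d) ℚ}
    (hf : f ∈ Sp r d k m) : th k v * f ∈ Sp r d k (m + (k - (v.2 : ℕ))) := by
  unfold Sp at hf
  induction hf using Submodule.span_induction with
  | zero => rw [mul_zero]; exact Submodule.zero_mem _
  | add a b _ _ ha hb => rw [mul_add]; exact Submodule.add_mem _ ha hb
  | smul a b _ hb => rw [mul_smul_comm]; exact Submodule.smul_mem _ _ hb
  | mem f hf =>
    obtain ⟨c, hc, rfl⟩ := hf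
    rw [th_mul_phi hdk]
    refine Submodule.subset_span ⟨_, ?_, rfl⟩
    rw [map_add, hc, Finsupp.degree_single]

/-- `{(i,j') : j' ≤ j}` -/
def lowA (v : Fin r × Fin d) : Finset (Fin r × Fin d) := univ.filter (fun w => w.1 = v.1 ∧ w.2 < v.2)

lemma insert_lowA_sub (v : Fin r × Fin d) : insert v (lowA v) ⊆ bat r d v.1 := by
  intro w hw
  simp only [lowA, mem_insert, mem_filter, mem_univ, true_and] at hw
  simp only [bat, bt, mem_filter, mem_univ, true_and]
  rcases hw with rfl | h
  · rfl
  · exact h.1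

lemma card_compl_lowA (v : Fin r × Fin d) :
    (bat r d v.1 \ insert v (lowA v)).card ≤ d - 1 - (v.2 : ℕ) := by
  rw [← Fin.card_Ioi v.2]
  apply Finset.card_le_card_of_injOn (fun w => w.2)
  · intro w hw
    simp only [bat, bt, lowA, coe_sdiff, coe_filter, Set.mem_sdiff, mem_univ, true_and, coe_insert, Set.mem_insert_iff,
      Set.mem_ofPred_eq, not_or, not_and, not_lt] at hw
    simp only [coe_Ioi, Set.mem_Ioi]
    have h1 := hw.2.2 hw.1
    rcases lt_or_eq_of_le h1 with h | h
    · exact h
    · exact absurd (Prod.ext hw.1 h.symm) hw.2.1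
  · intro w hw w' hw' h
    simp only [bat, bt, coe_sdiff, coe_filter, Set.mem_sdiff, mem_univ, true_and, Set.mem_ofPred_eq] at hw hw'
    exact Prod.ext (hw.1.trans hw'.1.symm) h

theorem hom_le_Sp {k : ℕ} (hdk : d ≤ k) (m : ℕ) :
    homogeneousSubmodule (Fin r × Fin d) ℚ m ≤ Sp r d k m := by
  induction m using Nat.strong_induction_on with
  | _ m ih =>
  have key : ∀ n, ∀ c : Fin r × Fin d →₀ ℕ, rho c = n → c.degree = m → monomial c (1 : ℚ) ∈ Sp r d k m := by
    intro n
    induction n using Nat.strong_induction_on with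
    | _ n ihn =>
    intro c hc hm
    by_cases hb : ∀ v, c v < k - (v.2 : ℕ)
    · exact Submodule.subset_span ⟨c, hm, (phi_of_lt hb).symm⟩
    · push Not at hb
      obtain ⟨v, hv⟩ := hb
      have hle : Finsupp.single v (k - (v.2 : ℕ)) ≤ c := by
        intro w
        rw [Finsupp.single_apply]
        split_ifs with h
        · rw [← h]; exact hv
        · exact Nat.zero_le _
      obtain ⟨c0, hc0⟩ := exists_add_of_le hle
      have hc0' : c = c0 + Finsupp.single v (k - (v.2 : ℕ)) := by rw [hc0, add_comm]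
      have hdeg : c0.degree + (k - (v.2 : ℕ)) = m := by
        rw [← hm, hc0', map_add, Finsupp.degree_single]
      have e1 : monomial c (1 : ℚ) = monomial c0 1 * hh (insert v (lowA v)) (k - (v.2 : ℕ)) -
          monomial c0 1 * (hh (insert v (lowA v)) (k - (v.2 : ℕ)) - X v ^ (k - (v.2 : ℕ))) := by
        rw [← mul_sub, sub_sub_cancel, X_pow_eq_monomial, monomial_mul, one_mul, ← hc0']
      rw [e1]
      refine Submodule.sub_mem _ ?_ ?_
      · rw [hh_sub (insert_lowA_sub v), Finset.mul_sum]
        refine Submodule.sum_mem _ fun p hp => ?_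
        rw [Finset.HasAntidiagonal.mem_antidiagonal] at hp
        by_cases hq : d - 1 - (v.2 : ℕ) < p.2
        · rw [em_eq_zero (lt_of_le_of_lt (card_compl_lowA v) hq), mul_zero, mul_zero]
          exact Submodule.zero_mem _
        · have hvd := v.2.2
          have hp1 : k - p.1 < d := by omega
          have hp2 : p.1 ≤ k := by omega
          have hp3 : 1 ≤ p.1 := by omega
          set v' : Fin r × Fin d := (v.1, ⟨k - p.1, hp1⟩) with hv'
          have hkv' : k - (v'.2 : ℕ) = p.1 := by simp [hv']; omega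
          have e2 : monomial c0 (1 : ℚ) * (hh (bat r d v.1) p.1 * em (bat r d v.1 \ insert v (lowA v)) p.2)
              = th k v' * (monomial c0 1 * em (bat r d v.1 \ insert v (lowA v)) p.2) := by
            unfold th
            rw [hkv']
            simp only [hv']
            ring
          rw [e2]
          have h3 : (monomial c0 1 * em (bat r d v.1 \ insert v (lowA v)) p.2) ∈ Sp r d k (m - p.1) := by
            apply ih (m - p.1) (by omega)
            rw [mem_homogeneousSubmodule]
            have h4 := (isHomogeneous_monomial (R := ℚ) (σ := Fin r × Fin d) 1 (rfl : c0.degree = c0.degree)).mul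
              ((mem_homogeneousSubmodule _ _).mp (em_hom (bat r d v.1 \ insert v (lowA v)) p.2))
            rwa [show c0.degree + p.2 = m - p.1 by omega] at h4
          have h5 := th_mul_Sp hdk v' h3
          rwa [hkv', Nat.sub_add_cancel (by omega)] at h5
      · have h1 := hh_sub_pow (T := lowA v) (v := v) (fun w hw => by
          simp only [lowA, mem_filter, mem_univ, true_and] at hw; exact hw.2) (k - (v.2 : ℕ))
        have h2 := Wm_mul (P := fun c' => c' = c0) (S := fun c' => c'.degree = m ∧ rho c' < n) ?_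
          (monomial_mem_Wm rfl) h1
        · have h3 : Wm (fun c' : Fin r × Fin d →₀ ℕ => c'.degree = m ∧ rho c' < n) ≤ Sp r d k m := by
            unfold Wm
            rw [Submodule.span_le]
            rintro f ⟨c', ⟨h4, h5⟩, rfl⟩
            exact ihn (rho c') h5 c' rfl h4
          exact h3 h2
        · rintro c1 c2 rfl ⟨h3, h4⟩
          rw [map_add, rho_add]
          refine ⟨by omega, ?_⟩
          rw [← hc, hc0', rho_add, rho_single]; omega
  rw [← Wm_degree]
  unfold Wm
  rw [Submodule.span_le]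
  rintro f ⟨c, hc, rfl⟩
  exact key _ c rfl hc

theorem Sp_eq {k : ℕ} (hdk : d ≤ k) (m : ℕ) :
    Sp r d k m = homogeneousSubmodule (Fin r × Fin d) ℚ m :=
  le_antisymm (Sp_le k m) (hom_le_Sp hdk m)

end main

end Pool.Agent.H30.BQR
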