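import Pool.Agent.H30.BQR.Chn

set_option autoImplicit false
set_option linter.unusedSectionVars false

namespace Pool.Agent.H30.BQR

open MvPolynomial Finset Module

/-- `q`-binomial coefficients, `q = X` -/
noncomputable def qB : ℕ → ℕ → PowerSeries ℚ
  | _, 0 => 1
  | 0, _ + 1 => 0
  | n + 1, k + 1 => qB n k + PowerSeries.X ^ (k + 1) * qB n (k + 1)

lemma qB_zero (n : ℕ) : qB n 0 = 1 := by cases n <;> rfl

lemma qB_succ (n k : ℕ) : qB (n + 1) (k + 1) = qB n k + PowerSeries.X ^ (k + 1) * qB n (k + 1) := rfl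

lemma qB_of_lt {n : ℕ} : ∀ {k : ℕ}, n < k → qB n k = 0 := by
  induction n with
  | zero =>
    intro k hk
    obtain ⟨k, rfl⟩ : ∃ j, k = j + 1 := ⟨k - 1, by omega⟩
    rfl
  | succ n ih =>
    intro k hk
    obtain ⟨k, rfl⟩ : ∃ j, k = j + 1 := ⟨k - 1, by omega⟩
    rw [qB_succ, ih (by omega), ih (by omega)]; simp

section main
variable {r d : ℕ}

lemma Hg_Jk (k s : ℕ) : Hg (Jk r d k s) := by
  unfold Jk Idl
  apply Hg_span
  rintro f (⟨v, hv, rfl⟩ | ⟨i, m, hm, rfl⟩ | ⟨m, hm, rfl⟩)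
  · exact ⟨1, isHomogeneous_X _ _⟩
  · exact ⟨m, hh_hom _ _⟩
  · exact ⟨m, em_hom _ _⟩

lemma rename_em_univ (w : Equiv.Perm (Fin r × Fin d)) (m : ℕ) :
    rename w (em (univ : Finset (Fin r × Fin d)) m) = em univ m := by
  rw [rename_em]
  congr 1
  exact Finset.image_univ_of_surjective w.surjective

lemma Stab_Jk {w : Equiv.Perm (Fin r × Fin d)} {σ : Equiv.Perm (Fin r)} (h : Over w σ) (k s : ℕ) :
    Stab w (Jk r d k s) := by
  have h1 : Jk r d k s ≤ (Jk r d k s).comap (rename w : MvPolynomial (Fin r × Fin d) ℚ →ₐ[ℚ] _) := by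
    apply Jk_le
    · intro i m hm
      rw [Ideal.mem_comap, rename_hh, image_bat h]
      exact Jk_hh hm
    · intro m hm
      rw [Ideal.mem_comap, rename_em_univ]
      exact Jk_em hm
  exact fun f hf => h1 hf

/-- the recursion of the graded characters -/
theorem chi_rec (hr : 0 < r) {w : Equiv.Perm (Fin r × Fin d)} {σ : Equiv.Perm (Fin r)} (h : Over w σ)
    {k s : ℕ} (hs : s ≤ k) (hsn : s ≤ r * d) (m : ℕ) :
    chi w (Jk r d (k + 1) s) (Stab_Jk h _ _) m =
      (if r * d - s ≤ m then chi w (Jk r d k s) (Stab_Jk h _ _) (m - (r * d - s)) else 0) +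
        chi w (Jk r d (k + 1) (s + 1)) (Stab_Jk h _ _) m := by
  set l := r * d - s with hl
  set e : MvPolynomial (Fin r × Fin d) ℚ := em univ l with he
  have hel : e ∈ homogeneousSubmodule (Fin r × Fin d) ℚ l := em_hom _ _
  have hJ : Jk r d (k + 1) (s + 1) = Jk r d (k + 1) s ⊔ Ideal.span {e} := Jk_succ hsn
  have hC : colon (Jk r d (k + 1) s) e = Jk r d k s := colon_eq hr hs hsn
  have hdec : ∀ f ∈ homogeneousSubmodule (Fin r × Fin d) ℚ m, f ∈ Jk r d (k + 1) (s + 1) →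
      ∃ u ∈ Jk r d (k + 1) s, ∃ g, f = (if l ≤ m then e * homogeneousComponent (m - l) g else 0) + u ∧
        u ∈ homogeneousSubmodule (Fin r × Fin d) ℚ m := by
    intro f hf hfJ
    rw [hJ] at hfJ
    obtain ⟨a, ha, b, hb, hab⟩ := Submodule.mem_sup.mp hfJ
    obtain ⟨g, rfl⟩ := Ideal.mem_span_singleton'.mp hb
    refine ⟨homogeneousComponent m a, Hg_Jk _ _ a ha m, g, ?_, homogeneousComponent_mem m a⟩
    have h1 := homogeneousComponent_of_mem (m := m) hf
    rw [if_pos rfl, ← hab, map_add, mul_comm g e, comp_mul hel] at h1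
    rw [← hab, mul_comm g e, ← h1, add_comm]
  unfold chi
  by_cases hlm : l ≤ m
  · rw [if_pos hlm]
    set φ : homogeneousSubmodule (Fin r × Fin d) ℚ (m - l) →ₗ[ℚ] homogeneousSubmodule (Fin r × Fin d) ℚ m :=
      (LinearMap.mulLeft ℚ e).restrict (fun f hf => by
        have := IsHomogeneous.mul hel hf
        rw [show l + (m - l) = m by omega] at this
        exact this) with hφ
    have hφc : ∀ x, (φ x : MvPolynomial (Fin r × Fin d) ℚ) = e * (x : MvPolynomial (Fin r × Fin d) ℚ) :=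
      fun x => rfl
    refine qtr_add φ (gp (Jk r d k s) (m - l)) (gp (Jk r d (k + 1) s) m) (gp (Jk r d (k + 1) (s + 1)) m)
      ?_ ?_ ?_ ?_ _ _ _ _ _ ?_
    · intro x hx
      rw [mem_gp] at hx ⊢
      rw [hJ]
      exact Ideal.mem_sup_left hx
    · ext x
      rw [Submodule.mem_comap, mem_gp, mem_gp, hφc, ← mem_colon, hC]
    · intro x hx
      obtain ⟨u, hu, g, hfg, hum⟩ := hdec x x.2 hx
      rw [if_pos hlm] at hfg
      refine ⟨⟨homogeneousComponent (m - l) g, homogeneousComponent_mem _ g⟩, ⟨u, hum⟩, hu, ?_⟩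
      apply Subtype.ext
      rw [hfg]; rfl
    · intro x
      rw [mem_gp, hφc, hJ]
      exact Ideal.mem_sup_right (Ideal.mul_mem_right _ _ (Ideal.subset_span rfl))
    · intro x
      apply Subtype.ext
      rw [fH_coe, hφc, hφc, fH_coe, map_mul, he, rename_em_univ]
  · rw [if_neg hlm, zero_add]
    have hgp : gp (Jk r d (k + 1) s) m = gp (Jk r d (k + 1) (s + 1)) m := by
      ext x
      rw [mem_gp, mem_gp]
      constructor
      · intro hx; rw [hJ]; exact Ideal.mem_sup_left hx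
      · intro hx
        obtain ⟨u, hu, g, hfg, hum⟩ := hdec x x.2 hx
        rw [if_neg hlm, zero_add] at hfg
        rw [hfg]; exact hu
    congr 1

theorem Chi_rec (hr : 0 < r) {w : Equiv.Perm (Fin r × Fin d)} {σ : Equiv.Perm (Fin r)} (h : Over w σ)
    {k s : ℕ} (hs : s ≤ k) (hsn : s ≤ r * d) :
    Chi w (Jk r d (k + 1) (s + 1)) (Stab_Jk h _ _) =
      Chi w (Jk r d (k + 1) s) (Stab_Jk h _ _) -
        PowerSeries.X ^ (r * d - s) * Chi w (Jk r d k s) (Stab_Jk h _ _) := by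
  ext m
  rw [map_sub, PowerSeries.coeff_X_pow_mul', Chi, PowerSeries.coeff_mk, Chi, PowerSeries.coeff_mk, Chi,
    PowerSeries.coeff_mk, chi_rec hr h hs hsn]
  ring

/-- solution of the recursion -/
theorem Chi_solve (hr : 0 < r) {w : Equiv.Perm (Fin r × Fin d)} {σ : Equiv.Perm (Fin r)} (h : Over w σ)
    (s : ℕ) (hsn : s ≤ r * d) : ∀ k, s ≤ k →
    Chi w (Jk r d k s) (Stab_Jk h _ _) = ∑ t ∈ range (s + 1), (-1) ^ t *
      PowerSeries.X ^ (t * (r * d - s) + t * (t + 1) / 2) * qB s t *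
        Chi w (Jk r d (k - t) 0) (Stab_Jk h _ _) := by
  induction s with
  | zero =>
    intro k _
    simp [qB_zero]
  | succ s ih =>
    intro k hk
    obtain ⟨k, rfl⟩ : ∃ k', k = k' + 1 := ⟨k - 1, by omega⟩
    rw [Chi_rec hr h (by omega) (by omega), ih (by omega) (k + 1) (by omega), ih (by omega) k (by omega)]
    set N := r * d - (s + 1) with hN
    have hN1 : r * d - s = N + 1 := by omega
    rw [hN1]
    rw [Finset.sum_range_succ' _ (s + 1)]
    have hexp : ∀ t, (t + 1) * (t + 1 + 1) / 2 = t * (t + 1) / 2 + (t + 1) := by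
      intro t
      have : (t + 1) * (t + 1 + 1) = t * (t + 1) + (t + 1) * 2 := by ring
      rw [this, Nat.add_mul_div_right _ _ (by norm_num)]
    have h1 : ∀ t, (-1 : PowerSeries ℚ) ^ (t + 1) * PowerSeries.X ^ ((t + 1) * N + (t + 1) * (t + 1 + 1) / 2) *
        qB (s + 1) (t + 1) * Chi w (Jk r d (k + 1 - (t + 1)) 0) (Stab_Jk h _ _) =
        -(PowerSeries.X ^ (N + 1) * ((-1) ^ t * PowerSeries.X ^ (t * (N + 1) + t * (t + 1) / 2) * qB s t *
          Chi w (Jk r d (k - t) 0) (Stab_Jk h _ _))) +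
        (-1) ^ (t + 1) * PowerSeries.X ^ ((t + 1) * (N + 1) + (t + 1) * (t + 1 + 1) / 2) * qB s (t + 1) *
          Chi w (Jk r d (k + 1 - (t + 1)) 0) (Stab_Jk h _ _) := by
      intro t
      have h2 : (Chi w (Jk r d (k + 1 - (t + 1)) 0) (Stab_Jk h _ _)) = Chi w (Jk r d (k - t) 0) (Stab_Jk h _ _) := by
        congr 2; omega
      rw [h2, qB_succ, hexp]
      ring
    simp_rw [h1]
    rw [Finset.sum_add_distrib, Finset.sum_neg_distrib, ← Finset.mul_sum]
    have h3 : ∑ t ∈ range (s + 1), (-1 : PowerSeries ℚ) ^ t * PowerSeries.X ^ (t * (N + 1) + t * (t + 1) / 2) *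
        qB s t * Chi w (Jk r d (k + 1 - t) 0) (Stab_Jk h _ _) =
        ∑ t ∈ range (s + 1), (-1 : PowerSeries ℚ) ^ (t + 1) *
          PowerSeries.X ^ ((t + 1) * (N + 1) + (t + 1) * (t + 1 + 1) / 2) * qB s (t + 1) *
          Chi w (Jk r d (k + 1 - (t + 1)) 0) (Stab_Jk h _ _) + Chi w (Jk r d (k + 1) 0) (Stab_Jk h _ _) := by
      rw [Finset.sum_range_succ' _ s, Finset.sum_range_succ _ s, qB_of_lt (show s < s + 1 by omega), qB_zero]
      simp
    rw [h3, qB_zero]
    simp only [pow_zero, zero_mul, zero_add, Nat.zero_div, mul_one, one_mul, Nat.sub_zero]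
    ring

end main

end Pool.Agent.H30.BQR
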