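import Mathlib

set_option autoImplicit false
set_option linter.unusedSectionVars false

namespace Pool.Agent.H30.BQR

open MvPolynomial Finset

section geo
variable {A : Type*} [CommRing A]

noncomputable def geo (a : A) : PowerSeries A := PowerSeries.mk fun n => a ^ n

lemma geo_mul (a : A) : geo a * (1 - PowerSeries.C a * PowerSeries.X) = 1 := by
  ext n
  rw [mul_sub, mul_one, map_sub, mul_comm (PowerSeries.C a), ← mul_assoc, mul_comm _ (PowerSeries.C a),
    PowerSeries.coeff_C_mul]
  cases n with
  | zero => simp [geo]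
  | succ n => simp [geo, PowerSeries.coeff_succ_mul_X, pow_succ', PowerSeries.coeff_one]

end geo

variable {V : Type*} [DecidableEq V]

noncomputable def Es (T : Finset V) : PowerSeries (MvPolynomial V ℚ) :=
  ∏ v ∈ T, (1 - PowerSeries.C (X v) * PowerSeries.X)

noncomputable def Hs (T : Finset V) : PowerSeries (MvPolynomial V ℚ) :=
  ∏ v ∈ T, geo (X v)

lemma Hs_mul_Es (T : Finset V) : Hs T * Es T = 1 := by
  unfold Hs Es
  rw [← Finset.prod_mul_distrib]
  exact Finset.prod_eq_one fun v _ => geo_mul _

lemma Es_mul_Hs_of_subset {A T : Finset V} (h : A ⊆ T) : Es T * Hs A = Es (T \ A) := by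
  have h1 : Es T = Es (T \ A) * Es A := by
    unfold Es
    rw [Finset.prod_sdiff h]
  rw [h1, mul_assoc, mul_comm (Es A), Hs_mul_Es, mul_one]

lemma Hs_mul_Es_of_subset {A T : Finset V} (h : A ⊆ T) : Hs T * Es A = Hs (T \ A) := by
  have h1 : Hs T = Hs (T \ A) * Hs A := by
    unfold Hs
    rw [Finset.prod_sdiff h]
  rw [h1, mul_assoc, Hs_mul_Es, mul_one]

/-- signed elementary symmetric polynomials of the variables in `T` -/
noncomputable def em (T : Finset V) (m : ℕ) : MvPolynomial V ℚ := PowerSeries.coeff m (Es T)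

/-- complete homogeneous symmetric polynomials of the variables in `T` -/
noncomputable def hh (T : Finset V) (m : ℕ) : MvPolynomial V ℚ := PowerSeries.coeff m (Hs T)

@[simp] lemma em_zero (T : Finset V) : em T 0 = 1 := by
  simp [em, Es, map_prod]

@[simp] lemma hh_zero (T : Finset V) : hh T 0 = 1 := by
  simp [hh, Hs, map_prod, geo]

lemma em_empty_succ (m : ℕ) : em (∅ : Finset V) (m + 1) = 0 := by
  simp [em, Es, PowerSeries.coeff_one]

lemma hh_empty_succ (m : ℕ) : hh (∅ : Finset V) (m + 1) = 0 := by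
  simp [hh, Hs, PowerSeries.coeff_one]

lemma em_insert {T : Finset V} {v : V} (hv : v ∉ T) (m : ℕ) :
    em (insert v T) (m + 1) = em T (m + 1) - X v * em T m := by
  unfold em Es
  rw [Finset.prod_insert hv, sub_mul, one_mul, map_sub, mul_assoc, PowerSeries.coeff_C_mul,
    mul_comm PowerSeries.X, PowerSeries.coeff_succ_mul_X]

lemma em_erase {T : Finset V} {v : V} (hv : v ∈ T) (m : ℕ) :
    em T (m + 1) = em (T.erase v) (m + 1) - X v * em (T.erase v) m := by
  conv_lhs => rw [← Finset.insert_erase hv]
  exact em_insert (Finset.notMem_erase v T) m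

lemma em_eq_zero {T : Finset V} : ∀ {m : ℕ}, T.card < m → em T m = 0 := by
  classical
  induction T using Finset.induction_on with
  | empty =>
    intro m hm
    obtain ⟨m, rfl⟩ : ∃ k, m = k + 1 := ⟨m - 1, by simp at hm; omega⟩
    exact em_empty_succ m
  | insert v T hv ih =>
    intro m hm
    rw [Finset.card_insert_of_notMem hv] at hm
    obtain ⟨m, rfl⟩ : ∃ k, m = k + 1 := ⟨m - 1, by omega⟩
    rw [em_insert hv, ih (by omega), ih (by omega)]
    simp

/-- `geo (X v) = Hs T * Es (T.erase v)` : powers of `X v` -/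
lemma X_pow_eq {T : Finset V} {v : V} (hv : v ∈ T) (n : ℕ) :
    (X v : MvPolynomial V ℚ) ^ n = ∑ p ∈ antidiagonal n, hh T p.1 * em (T.erase v) p.2 := by
  have h : Hs T * Es (T.erase v) = geo (X v) := by
    rw [Hs_mul_Es_of_subset (Finset.erase_subset v T)]
    have : T \ T.erase v = {v} := by
      ext w; simp only [mem_sdiff, mem_erase, mem_singleton]
      constructor
      · rintro ⟨h1, h2⟩; by_contra h3; exact h2 ⟨h3, h1⟩
      · rintro rfl; exact ⟨hv, by simp⟩
    rw [this]; simp [Hs]
  have h2 := congrArg (PowerSeries.coeff n) h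
  rw [PowerSeries.coeff_mul] at h2
  simp only [geo, PowerSeries.coeff_mk] at h2
  exact h2.symm

/-- `hh` of a subset -/
lemma hh_sub {A T : Finset V} (h : A ⊆ T) (n : ℕ) :
    hh A n = ∑ p ∈ antidiagonal n, hh T p.1 * em (T \ A) p.2 := by
  have h1 := Hs_mul_Es_of_subset (Finset.sdiff_subset (s := T) (t := A))
  rw [Finset.sdiff_sdiff_eq_self h] at h1
  have h2 := congrArg (PowerSeries.coeff n) h1
  rw [PowerSeries.coeff_mul] at h2
  exact h2.symm

lemma em_sdiff {A T : Finset V} (h : A ⊆ T) (n : ℕ) :
    em (T \ A) n = ∑ p ∈ antidiagonal n, em T p.1 * hh A p.2 := by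
  have h2 := congrArg (PowerSeries.coeff n) (Es_mul_Hs_of_subset h)
  rw [PowerSeries.coeff_mul] at h2
  exact h2.symm

lemma hh_insert {T : Finset V} {v : V} (hv : v ∉ T) (m : ℕ) :
    hh (insert v T) (m + 1) = hh T (m + 1) + X v * hh (insert v T) m := by
  have h1 : Hs T = Hs (insert v T) * (1 - PowerSeries.C (X v) * PowerSeries.X) := by
    unfold Hs
    rw [Finset.prod_insert hv, mul_assoc, mul_comm _ (1 - _), ← mul_assoc, geo_mul, one_mul]
  have h2 := congrArg (PowerSeries.coeff (m + 1)) h1
  rw [mul_sub, mul_one, map_sub, mul_comm (PowerSeries.C _), ← mul_assoc, mul_comm _ (PowerSeries.C _),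
    PowerSeries.coeff_C_mul, PowerSeries.coeff_succ_mul_X] at h2
  unfold hh
  rw [h2]; ring

lemma hh_erase {T : Finset V} {v : V} (hv : v ∈ T) (m : ℕ) :
    hh (T.erase v) (m + 1) = hh T (m + 1) - X v * hh T m := by
  have := hh_insert (Finset.notMem_erase v T) m
  rw [Finset.insert_erase hv] at this
  rw [this]; ring

/-- `hh T m` for large `m` from smaller ones -/
lemma hh_rec (T : Finset V) (m : ℕ) (hm : 0 < m) :
    hh T m = - ∑ j ∈ Finset.range T.card, if j + 1 ≤ m then em T (j + 1) * hh T (m - (j + 1)) else 0 := by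
  have h2 := congrArg (PowerSeries.coeff m) (Hs_mul_Es T)
  rw [mul_comm, PowerSeries.coeff_mul, PowerSeries.coeff_one, if_neg (by omega),
    Finset.Nat.sum_antidiagonal_eq_sum_range_succ (fun a b => PowerSeries.coeff a (Es T) *
      PowerSeries.coeff b (Hs T)), Finset.sum_range_succ'] at h2
  have h3 : PowerSeries.coeff 0 (Es T) * PowerSeries.coeff (m - 0) (Hs T) = hh T m := by
    have := em_zero T
    unfold em at this
    rw [this, one_mul]; rfl
  rw [h3] at h2
  have h4 : ∑ k ∈ range m, PowerSeries.coeff (k + 1) (Es T) * PowerSeries.coeff (m - (k + 1)) (Hs T)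
      = ∑ j ∈ Finset.range T.card, if j + 1 ≤ m then em T (j + 1) * hh T (m - (j + 1)) else 0 := by
    rw [← Finset.sum_filter]
    symm
    apply Finset.sum_subset_zero_on_sdiff
    · intro j hj
      simp only [mem_filter, mem_range] at hj ⊢
      omega
    · intro j hj
      simp only [mem_sdiff, mem_filter, mem_range, not_and] at hj
      have : T.card < j + 1 := by
        by_contra h; exact hj.2 (by omega) (by omega)
      have h5 := em_eq_zero this
      unfold em at h5
      rw [h5, zero_mul]
    · intro j _; rfl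
  rw [h4] at h2
  linear_combination h2

end Pool.Agent.H30.BQR
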